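import Mathlib

/-!
MP_1ad17e_al: involutions which are large 2-power powers.

Let `T` be a Sylow 2-subgroup of the finite group `G`, of class at most `n`, `k = 2 (n - 1)`. Every
element `y` of `G` with `y ^ 2 = 1` which is a `2 ^ k`-th power of an element of `G` commutes with every
involution `b` such that `y` and `b` lie in a common 2-subgroup. So the subgroup of `T` generated by all
such `y` in `T` is elementary abelian and strongly closed.
-/

set_option autoImplicit false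

namespace E1adH4

open Subgroup
open scoped commutatorElement

section lemA

variable {H : Type*} [Group H]

private theorem comm_sq (a q : H) :
    ⁅a ^ 2, q⁆ = ⁅a, ⁅a, q⁆⁆ * (⁅a, q⁆ * ⁅a, q⁆) := by
  simp only [commutatorElement_def, pow_two]
  group

/-- An involution `q` and an element `x`: the commutator of `x ^ (2 ^ j)` and `q`. -/
theorem comm_mem {x q : H} (hq : q * q = 1) (j : ℕ) :
    ⁅x ^ (2 ^ j), q⁆ ∈ (⊤ : Subgroup H).lowerCentralSeries (j + 1) := by
  have hqi : q⁻¹ = q := inv_eq_of_mul_eq_one_left hq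
  induction j with
  | zero =>
    rw [pow_zero, pow_one]
    exact Subgroup.commutator_mem_commutator (Subgroup.mem_top x) (Subgroup.mem_top q)
  | succ j ih =>
    set a := x ^ (2 ^ j) with ha
    set c := ⁅a, q⁆ with hc
    have h1 : x ^ (2 ^ (j + 1)) = a ^ 2 := by rw [ha, ← pow_mul, pow_succ]
    have h2 : ⁅c, q⁆ = c * c := by
      have h3 : q * c⁻¹ * q⁻¹ = c := by
        rw [hc]
        simp only [commutatorElement_def, hqi, mul_inv_rev, inv_inv]
        calc q * (q * (a * (q * a⁻¹))) * q = (q * q) * a * q * a⁻¹ * q := by group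
          _ = a * q * a⁻¹ * q := by rw [hq, one_mul]
      calc ⁅c, q⁆ = c * (q * c⁻¹ * q⁻¹) := by rw [commutatorElement_def]; group
        _ = c * c := by rw [h3]
    rw [h1, comm_sq, ← hc, ← h2]
    refine mul_mem ?_ ?_
    · rw [← commutatorElement_inv]
      refine inv_mem ?_
      exact Subgroup.commutator_mem_commutator ih (Subgroup.mem_top a)
    · exact Subgroup.commutator_mem_commutator ih (Subgroup.mem_top q)

/-- `x ^ (2 ^ (n - 1))` commutes with all involutions in a group of class at most `n`. -/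
theorem commute_of_class {n : ℕ} (hn : 1 ≤ n) (hH : (⊤ : Subgroup H).lowerCentralSeries n = ⊥) (x : H) {q : H}
    (hq : q * q = 1) : x ^ (2 ^ (n - 1)) * q = q * x ^ (2 ^ (n - 1)) := by
  have h1 := comm_mem (x := x) hq (n - 1)
  rw [Nat.sub_add_cancel hn, hH, Subgroup.mem_bot, commutatorElement_eq_one_iff_mul_comm] at h1
  exact h1

end lemA

section main

variable {G : Type*} [Group G] [Finite G]

/-- The same in all 2-subgroups of a finite group with Sylow 2-subgroups of class at most `n`. -/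
theorem commute_of_sylow {n : ℕ} (hn : 1 ≤ n) (T : Sylow 2 G)
    (hT : Group.nilpotencyClass (T : Subgroup G) ≤ n) {P : Subgroup G} (hP : IsPGroup 2 P) {x q : G}
    (hx : x ∈ P) (hqP : q ∈ P) (hq : q * q = 1) :
    x ^ (2 ^ (n - 1)) * q = q * x ^ (2 ^ (n - 1)) := by
  have hTn : Group.IsNilpotent (T : Subgroup G) := T.isPGroup'.isNilpotent
  have hlcs : (⊤ : Subgroup (T : Subgroup G)).lowerCentralSeries n = ⊥ :=
    Subgroup.lowerCentralSeries_eq_bot_iff_nilpotencyClass_le.2 hT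
  obtain ⟨S, hS⟩ := hP.exists_le_sylow
  obtain ⟨g, hg⟩ := MulAction.exists_smul_eq G S T
  have hmem : ∀ z ∈ P, g * z * g⁻¹ ∈ (T : Subgroup G) := by
    intro z hz
    have h1 : z ∈ (S : Subgroup G) := hS hz
    rw [← hg]
    exact ⟨z, h1, rfl⟩
  have hq' : (⟨g * q * g⁻¹, hmem q hqP⟩ : (T : Subgroup G)) * ⟨g * q * g⁻¹, hmem q hqP⟩ = 1 := by
    apply Subtype.ext
    change g * q * g⁻¹ * (g * q * g⁻¹) = 1
    calc g * q * g⁻¹ * (g * q * g⁻¹) = g * (q * q) * g⁻¹ := by group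
      _ = 1 := by rw [hq]; group
  have h1 := commute_of_class hn hlcs ⟨g * x * g⁻¹, hmem x hx⟩ hq'
  have h2 := congrArg Subtype.val h1
  change (g * x * g⁻¹) ^ (2 ^ (n - 1)) * (g * q * g⁻¹) =
    g * q * g⁻¹ * (g * x * g⁻¹) ^ (2 ^ (n - 1)) at h2
  rw [conj_pow] at h2
  have h3 : g * (x ^ (2 ^ (n - 1)) * q) * g⁻¹ = g * (q * x ^ (2 ^ (n - 1))) * g⁻¹ := by
    calc g * (x ^ (2 ^ (n - 1)) * q) * g⁻¹ =
        g * x ^ (2 ^ (n - 1)) * g⁻¹ * (g * q * g⁻¹) := by group
      _ = g * q * g⁻¹ * (g * x ^ (2 ^ (n - 1)) * g⁻¹) := h2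
      _ = g * (q * x ^ (2 ^ (n - 1))) * g⁻¹ := by group
  exact mul_left_cancel (mul_right_cancel h3)

/-- Sylow's theorem in a subgroup `H`. -/
theorem exists_common (H R R' : Subgroup G) (hR : IsPGroup 2 R) (hR' : IsPGroup 2 R')
    (hRH : R ≤ H) (hRH' : R' ≤ H) :
    ∃ c ∈ H, ∃ P : Subgroup G, IsPGroup 2 P ∧ R ≤ P ∧ P ≤ H ∧ ∀ z ∈ R', c * z * c⁻¹ ∈ P := by
  have h1 : IsPGroup 2 (R.subgroupOf H) := hR.comap_subtype
  have h2 : IsPGroup 2 (R'.subgroupOf H) := hR'.comap_subtype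
  obtain ⟨S, hS⟩ := h1.exists_le_sylow
  obtain ⟨S', hS'⟩ := h2.exists_le_sylow
  obtain ⟨c, hc⟩ := MulAction.exists_smul_eq H S' S
  refine ⟨c, c.2, (S : Subgroup H).map H.subtype, S.isPGroup'.map H.subtype, ?_, ?_, ?_⟩
  · intro z hz
    exact ⟨⟨z, hRH hz⟩, hS (mem_subgroupOf.2 hz), rfl⟩
  · rintro _ ⟨z, -, rfl⟩
    exact z.2
  · intro z hz
    have h3 : (⟨z, hRH' hz⟩ : H) ∈ (S' : Subgroup H) := hS' (mem_subgroupOf.2 hz)
    refine ⟨c * ⟨z, hRH' hz⟩ * c⁻¹, ?_, rfl⟩
    rw [← hc]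
    exact ⟨⟨z, hRH' hz⟩, h3, rfl⟩

/-- The elements `g` with `g z g⁻¹ = z` and `g y g⁻¹ = y` or `y z`. -/
def stab (y z : G) (hz : z * z = 1) : Subgroup G where
  carrier := {g | g * z * g⁻¹ = z ∧ (g * y * g⁻¹ = y ∨ g * y * g⁻¹ = y * z)}
  one_mem' := ⟨by group, Or.inl (by group)⟩
  mul_mem' := by
    rintro a b ⟨ha1, ha2⟩ ⟨hb1, hb2⟩
    have e : ∀ u : G, a * b * u * (a * b)⁻¹ = a * (b * u * b⁻¹) * a⁻¹ := fun u => by group
    refine ⟨by rw [e, hb1, ha1], ?_⟩
    rw [e]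
    rcases hb2 with h | h
    · rw [h]
      exact ha2
    · rw [h]
      have e2 : a * (y * z) * a⁻¹ = (a * y * a⁻¹) * (a * z * a⁻¹) := by group
      rw [e2, ha1]
      rcases ha2 with h' | h'
      · rw [h']
        exact Or.inr rfl
      · rw [h', mul_assoc, hz, mul_one]
        exact Or.inl rfl
  inv_mem' := by
    rintro a ⟨ha1, ha2⟩
    have h1 : a⁻¹ * z * a⁻¹⁻¹ = z := by
      conv_lhs => rw [← ha1]
      group
    refine ⟨h1, ?_⟩
    rcases ha2 with h | h
    · left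
      conv_lhs => rw [← h]
      group
    · right
      have e : a⁻¹ * (y * z) * a⁻¹⁻¹ = (a⁻¹ * y * a⁻¹⁻¹) * (a⁻¹ * z * a⁻¹⁻¹) := by group
      have e2 : a⁻¹ * (y * z) * a⁻¹⁻¹ = y := by
        rw [← h]
        group
      rw [e2, h1] at e
      calc a⁻¹ * y * a⁻¹⁻¹ = a⁻¹ * y * a⁻¹⁻¹ * (z * z) := by rw [hz, mul_one]
        _ = a⁻¹ * y * a⁻¹⁻¹ * z * z := by group
        _ = y * z := by rw [← e]

/-- The key step: there is no involution `b` which exchanges `y` and `y z`. -/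
theorem key {n : ℕ} (hn : 1 ≤ n) (T : Sylow 2 G)
    (hT : Group.nilpotencyClass (T : Subgroup G) ≤ n) {y z b r : G} (hr : r ^ (2 ^ (2 * (n - 1))) = y)
    (hy : y * y = 1) (hz : z * z = 1) (hb : b * b = 1) (hyz : y * z = z * y)
    (hbz : b * z * b⁻¹ = z) (hby : b * y * b⁻¹ = y * z) : z = 1 := by
  -- step 1
  have hr2 : r ^ (2 ^ (2 * (n - 1) + 1)) = 1 := by rw [pow_succ, pow_mul, hr, pow_two, hy]
  have hgrp : ∀ (u : G) (m : ℕ), u ^ (2 ^ m) = 1 → IsPGroup 2 (zpowers u) := by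
    intro u m hu
    have : Nat.card (zpowers u) ∣ 2 ^ m := by
      rw [Nat.card_zpowers]
      exact orderOf_dvd_of_pow_eq_one hu
    obtain ⟨i, -, hi⟩ := (Nat.dvd_prime_pow Nat.prime_two).1 this
    exact IsPGroup.of_card hi
  have hzp : IsPGroup 2 (zpowers z) := hgrp z 1 (by rw [pow_one, pow_two, hz])
  have hbp : IsPGroup 2 (zpowers b) := hgrp b 1 (by rw [pow_one, pow_two, hb])
  have hrp : IsPGroup 2 (zpowers r) := hgrp r _ hr2
  obtain ⟨c, hc, P, hP, h1, -, h2⟩ := exists_common (centralizer {y}) (zpowers z) (zpowers r) hzp hrp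
    (by
      rw [zpowers_le, mem_centralizer_singleton_iff]
      exact hyz.symm)
    (by
      rw [zpowers_le, mem_centralizer_singleton_iff, ← hr]
      exact (Commute.self_pow r _).eq)
  have hcy : c * y * c⁻¹ = y := by
    have := mem_centralizer_singleton_iff.1 hc
    rw [this]
    group
  set r1 := c * r * c⁻¹ with hr1
  have hr1P : r1 ∈ P := h2 r (mem_zpowers r)
  have hr1y : r1 ^ (2 ^ (2 * (n - 1))) = y := by rw [hr1, conj_pow, hr, hcy]
  have hcomm1 := commute_of_sylow hn T hT hP hr1P (h1 (mem_zpowers z)) hz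
  set r2 := r1 ^ (2 ^ (n - 1)) with hr2'
  have hr2y : r2 ^ (2 ^ (n - 1)) = y := by
    rw [hr2', ← pow_mul, ← pow_add, ← two_mul, hr1y]
  have hr2p : IsPGroup 2 (zpowers r2) := by
    refine hgrp r2 (n - 1 + 1) ?_
    rw [pow_succ, pow_mul, hr2y, pow_two, hy]
  -- step 2
  obtain ⟨d, hd, Q, hQ, h3, -, h4⟩ := exists_common (stab y z hz) (zpowers b) (zpowers r2) hbp hr2p
    (by
      rw [zpowers_le]
      exact ⟨hbz, Or.inr hby⟩)
    (by
      rw [zpowers_le]
      refine ⟨by rw [hcomm1]; group, Or.inl ?_⟩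
      have : r2 * y = y * r2 := by
        rw [← hr2y]
        exact (Commute.self_pow r2 _).eq
      rw [this]
      group)
  have hcomm2 := commute_of_sylow hn T hT hQ (h4 r2 (mem_zpowers r2)) (h3 (mem_zpowers b)) hb
  rw [conj_pow, hr2y] at hcomm2
  have hb' : ∀ u : G, u * b = b * u → b * u * b⁻¹ = u := fun u hu => by
    rw [← hu]
    group
  rcases hd.2 with h | h
  · rw [h] at hcomm2
    have h5 := hb' y hcomm2
    rw [hby] at h5
    exact mul_eq_left.1 h5
  · rw [h] at hcomm2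
    have h5 := hb' (y * z) hcomm2
    have h6 : b * (y * z) * b⁻¹ = (b * y * b⁻¹) * (b * z * b⁻¹) := by group
    rw [h6, hby, hbz, mul_assoc, hz, mul_one] at h5
    exact mul_eq_left.1 h5.symm

/-- An element `y` with `y ^ 2 = 1`, which is a `2 ^ (2 (n - 1))`-th power, commutes with the
involutions with which it generates a 2-group. -/
theorem commute_inv {n : ℕ} (hn : 1 ≤ n) (T : Sylow 2 G)
    (hT : Group.nilpotencyClass (T : Subgroup G) ≤ n) {y r b : G} (hr : r ^ (2 ^ (2 * (n - 1))) = y)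
    (hy : y * y = 1) (hb : b * b = 1) {P : Subgroup G} (hP : IsPGroup 2 P) (hyP : y ∈ P)
    (hbP : b ∈ P) : y * b = b * y := by
  have hyi : y⁻¹ = y := inv_eq_of_mul_eq_one_left hy
  have hbi : b⁻¹ = b := inv_eq_of_mul_eq_one_left hb
  set u := y * b with hu
  have huP : u ∈ P := mul_mem hyP hbP
  have hyu : y * u * y⁻¹ = u⁻¹ := by
    rw [hu, mul_inv_rev, hyi, hbi]
    calc y * (y * b) * y = (y * y) * (b * y) := by group
      _ = b * y := by rw [hy, one_mul]
  obtain ⟨m, hm⟩ := hP ⟨u, huP⟩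
  have hm' : u ^ (2 ^ m) = 1 := congrArg Subtype.val hm
  by_contra hne
  -- the order of `u` is divisible by four
  have hex : ∃ j, u ^ (2 ^ (j + 1)) = 1 := ⟨m, by rw [pow_succ, pow_mul, hm', one_pow]⟩
  classical
  let j := Nat.find hex
  have hj : u ^ (2 ^ (j + 1)) = 1 := Nat.find_spec hex
  have hjmin : ∀ i, i < j → u ^ (2 ^ (i + 1)) ≠ 1 := fun i hi => Nat.find_min hex hi
  have hj0 : j ≠ 0 := by
    intro h0
    rw [h0, zero_add, pow_one, pow_two] at hj
    apply hne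
    have h1 : u = u⁻¹ := eq_inv_of_mul_eq_one_left hj
    rw [h1, hu, mul_inv_rev, hyi, hbi]
  obtain ⟨i, hi⟩ := Nat.exists_eq_succ_of_ne_zero hj0
  set c := u ^ (2 ^ i) with hc
  have hcP : c ∈ P := pow_mem huP _
  have hc2 : c * c ≠ 1 := by
    have := hjmin i (by omega)
    rwa [pow_succ, pow_mul, ← hc, pow_two] at this
  have hc4 : (c * c) * (c * c) = 1 := by
    have h1 : u ^ (2 ^ (i + 1 + 1)) = 1 := by
      have := hj
      rwa [hi] at this
    rw [pow_succ 2 (i + 1), pow_succ 2 i, pow_mul, pow_mul, ← hc, pow_two, pow_two] at h1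
    exact h1
  have hyc : y * c * y⁻¹ = c⁻¹ := by
    rw [hc, ← conj_pow, hyu, inv_pow]
  have hyc' : y * c = c⁻¹ * y := by
    rw [← hyc]
    group
  apply hc2
  have hc3 : c⁻¹ = c * (c * c) := by
    have : c * (c * (c * c)) = 1 := by
      rw [← hc4]
      group
    exact inv_eq_of_mul_eq_one_right this
  have hycc : y * (c * c) = (c * c) * y := by
    calc y * (c * c) = (y * c) * c := by group
      _ = c⁻¹ * y * c := by rw [hyc']
      _ = c⁻¹ * (y * c) := by group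
      _ = c⁻¹ * (c⁻¹ * y) := by rw [hyc']
      _ = (c * c)⁻¹ * y := by group
      _ = (c * c) * y := by rw [inv_eq_of_mul_eq_one_left hc4]
  refine key hn T hT (y := y) (z := c * c) (b := y * c) (r := r) hr hy hc4 ?_ ?_ ?_ ?_
  · calc y * c * (y * c) = c⁻¹ * y * (y * c) := by rw [hyc']
      _ = c⁻¹ * (y * y) * c := by group
      _ = 1 := by rw [hy]; group
  · exact hycc
  · calc y * c * (c * c) * (y * c)⁻¹ = y * (c * c) * y⁻¹ := by group
      _ = (y * c * y⁻¹) * (y * c * y⁻¹) := by group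
      _ = c⁻¹ * c⁻¹ := by rw [hyc]
      _ = (c * c)⁻¹ := by group
      _ = c * c := inv_eq_of_mul_eq_one_left hc4
  · calc y * c * y * (y * c)⁻¹ = (y * c * y) * (c⁻¹ * y⁻¹) := by group
      _ = (y * c * y⁻¹) * (c⁻¹ * y⁻¹) := by rw [hyi]
      _ = c⁻¹ * c⁻¹ * y⁻¹ := by rw [hyc]; group
      _ = (c * c)⁻¹ * y := by rw [hyi]; group
      _ = (c * c) * y := by rw [inv_eq_of_mul_eq_one_left hc4]
      _ = y * (c * c) := hycc.symm

end main

end E1adH4
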