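import Mathlib

/-!
MP_1ad17e_al: commutators with 2-power powers in the normal closure of an involution which is a
`2 ^ m`-th power.
-/

set_option autoImplicit false

namespace E1adH4

open scoped commutatorElement

section grow

variable {H : Type*} [Group H]

/-- `N`, `[N, H]`, `[N, H, H]`, ... -/
def KS (N : Subgroup H) : ℕ → Subgroup H
  | 0 => N
  | j + 1 => ⁅KS N j, (⊤ : Subgroup H)⁆

instance KS_normal (N : Subgroup H) [N.Normal] (j : ℕ) : (KS N j).Normal := by
  induction j with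
  | zero => assumption
  | succ j ih =>
    unfold KS
    infer_instance

theorem KS_succ_le (N : Subgroup H) [N.Normal] (j : ℕ) : KS N (j + 1) ≤ KS N j :=
  Subgroup.commutator_le_left _ _

theorem KS_anti (N : Subgroup H) [N.Normal] {i j : ℕ} (h : i ≤ j) : KS N j ≤ KS N i := by
  induction h with
  | refl => exact le_refl _
  | step _ ih => exact (KS_succ_le N _).trans ih

theorem KS_comm (N : Subgroup H) {j : ℕ} {k : H} (hk : k ∈ KS N j) (s : H) :
    ⁅k, s⁆ ∈ KS N (j + 1) :=
  Subgroup.commutator_mem_commutator hk (Subgroup.mem_top s)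

theorem KS_le_lcs (N : Subgroup H) (j : ℕ) : KS N j ≤ (⊤ : Subgroup H).lowerCentralSeries j := by
  induction j with
  | zero => exact le_top
  | succ j ih => exact Subgroup.commutator_mono ih le_rfl

/-- The elements which commute with `L` modulo `M`. -/
def cmod (L M : Subgroup H) [L.Normal] [M.Normal] : Subgroup H where
  carrier := {u | ∀ k ∈ L, ⁅k, u⁆ ∈ M}
  one_mem' := fun k _ => by
    rw [commutatorElement_one_right]
    exact M.one_mem
  mul_mem' := by
    intro a b ha hb k hk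
    have e : ⁅k, a * b⁆ = ⁅k, a⁆ * (a * ⁅k, b⁆ * a⁻¹) := by
      simp only [commutatorElement_def]
      group
    rw [e]
    exact M.mul_mem (ha k hk) (Subgroup.Normal.conj_mem inferInstance _ (hb k hk) a)
  inv_mem' := by
    intro a ha k hk
    have e : ⁅k, a⁻¹⁆ = a⁻¹ * ⁅k, a⁆⁻¹ * a⁻¹⁻¹ := by
      simp only [commutatorElement_def]
      group
    rw [e]
    exact Subgroup.Normal.conj_mem inferInstance _ (M.inv_mem (ha k hk)) a⁻¹

instance cmod_normal (L M : Subgroup H) [L.Normal] [M.Normal] : (cmod L M).Normal where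
  conj_mem := by
    intro u hu g k hk
    have e : ⁅k, g * u * g⁻¹⁆ = g * ⁅g⁻¹ * k * g⁻¹⁻¹, u⁆ * g⁻¹ := by
      simp only [commutatorElement_def]
      group
    rw [e]
    exact Subgroup.Normal.conj_mem inferInstance _
      (hu _ (Subgroup.Normal.conj_mem inferInstance _ hk g⁻¹)) g

/-- squares in a group which is abelian modulo `M` -/
theorem sq_mem_of_closure (M : Subgroup H) [M.Normal] (s : Set H)
    (hc : ∀ k ∈ Subgroup.closure s, ∀ l ∈ Subgroup.closure s, ⁅k, l⁆ ∈ M)
    (hs : ∀ k ∈ s, k * k ∈ M) {k : H} (hk : k ∈ Subgroup.closure s) : k * k ∈ M := by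
  refine Subgroup.closure_induction (p := fun k _ => k * k ∈ M) hs ?_ ?_ ?_ hk
  · rw [one_mul]
    exact M.one_mem
  · intro x y hx hy hx2 hy2
    have e : x * y * (x * y) = (x * x) * (⁅x⁻¹, y⁆ * (y * y)) := by
      simp only [commutatorElement_def]
      group
    rw [e]
    exact M.mul_mem hx2 (M.mul_mem (hc _ (Subgroup.inv_mem _ hx) _ hy) hy2)
  · intro x hx hx2
    rw [← mul_inv_rev]
    exact M.inv_mem hx2

variable {y q : H} {m : ℕ}

/-- the property of depth `w` -/
def PW (N : Subgroup H) (w : ℕ) : Prop :=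
  ∀ j, (∀ k ∈ KS N j, ∀ l ∈ N, ⁅k, l⁆ ∈ KS N (j + w)) ∧ ∀ k ∈ KS N j, k * k ∈ KS N (j + w)

/-- doubling -/
theorem double (N : Subgroup H) [N.Normal] {w d : ℕ} (hw : ∀ j, ∀ k ∈ KS N j, k * k ∈ KS N (j + w))
    {v : H} (hv : ∀ j, ∀ k ∈ KS N j, ⁅k, v⁆ ∈ KS N (j + d)) :
    ∀ j, ∀ k ∈ KS N j, ⁅k, v ^ 2⁆ ∈ KS N (j + min (2 * d) (d + w)) := by
  intro j k hk
  set c := ⁅k, v⁆ with hc
  have h1 : c ∈ KS N (j + d) := hv j k hk
  have e : ⁅k, v ^ 2⁆ = (c * ⁅c, v⁆⁻¹ * c⁻¹) * (c * c) := by
    rw [hc]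
    simp only [commutatorElement_def, pow_two]
    group
  rw [e]
  refine Subgroup.mul_mem _ ?_ ?_
  · refine Subgroup.Normal.conj_mem inferInstance _ (Subgroup.inv_mem _ ?_) c
    exact KS_anti N (by omega) (hv (j + d) c h1)
  · exact KS_anti N (by omega) (hw (j + d) c h1)

theorem PW_step (hy : y * y = 1) (hq : q ^ (2 ^ m) = y) {w : ℕ} (hwm : w + 1 ≤ 2 ^ m)
    (h : PW (Subgroup.normalClosure {y}) w) : PW (Subgroup.normalClosure {y}) (w + 1) := by
  set N := Subgroup.normalClosure {y} with hN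
  -- commutators with the powers of `q`
  have h1 : ∀ a : ℕ, ∀ j, ∀ k ∈ KS N j, ⁅k, q ^ (2 ^ a)⁆ ∈ KS N (j + min (2 ^ a) (w + 1)) := by
    intro a
    induction a with
    | zero =>
      intro j k hk
      rw [pow_zero, pow_one]
      exact KS_anti N (by omega) (KS_comm N hk q)
    | succ a ih =>
      intro j k hk
      have h2 := double N (fun j => (h j).2) ih j k hk
      rw [← pow_mul, ← pow_succ] at h2
      refine KS_anti N ?_ h2
      have h3 : 1 ≤ 2 ^ a := Nat.one_le_two_pow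
      have h4 : 2 ^ (a + 1) = 2 * 2 ^ a := by rw [pow_succ, mul_comm]
      omega
  have h2 : ∀ j, ∀ k ∈ KS N j, ∀ l ∈ N, ⁅k, l⁆ ∈ KS N (j + (w + 1)) := by
    intro j k hk l hl
    have h3 : N ≤ cmod (KS N j) (KS N (j + (w + 1))) := by
      refine Subgroup.normalClosure_le_normal ?_
      rintro _ rfl
      intro k hk
      have h4 := h1 m j k hk
      rw [hq] at h4
      exact KS_anti N (by omega) h4
    exact h3 hl k hk
  refine fun j => ⟨h2 j, ?_⟩
  induction j with
  | zero =>
    intro k hk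
    change k ∈ N at hk
    rw [hN, Subgroup.normalClosure] at hk
    refine sq_mem_of_closure (KS N (0 + (w + 1))) _ ?_ ?_ hk
    · intro k hk l hl
      exact h2 0 k hk l hl
    · intro k hk
      obtain ⟨a, ha, hka⟩ := Group.mem_conjugatesOfSet_iff.1 hk
      rw [Set.mem_singleton_iff] at ha
      subst ha
      obtain ⟨g, hg⟩ := isConj_iff.1 hka
      rw [← hg]
      have e : g * a * g⁻¹ * (g * a * g⁻¹) = 1 := by
        calc g * a * g⁻¹ * (g * a * g⁻¹) = g * (a * a) * g⁻¹ := by group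
          _ = 1 := by rw [hy]; group
      rw [e]
      exact Subgroup.one_mem _
  | succ j ih =>
    intro k hk
    refine sq_mem_of_closure (KS N (j + 1 + (w + 1))) {x | ∃ k ∈ KS N j, ∃ s ∈ (⊤ : Subgroup H),
      ⁅k, s⁆ = x} ?_ ?_ hk
    · intro k hk l hl
      exact h2 (j + 1) k hk l (KS_anti N (Nat.zero_le (j + 1)) hl)
    · rintro _ ⟨k, hk, s, -, rfl⟩
      set c := ⁅k, s⁆ with hc
      have h3 : ⁅k * k, s⁆ ∈ KS N (j + 1 + (w + 1)) := KS_anti N (by omega) (KS_comm N (ih k hk) s)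
      have h4 : ⁅c, k⁆ ∈ KS N (j + 1 + (w + 1)) :=
        h2 (j + 1) c (KS_comm N hk s) k (KS_anti N (Nat.zero_le j) hk)
      have e : c * c = ⁅c, k⁆ * ⁅k * k, s⁆ := by
        rw [hc]
        simp only [commutatorElement_def]
        group
      rw [e]
      exact Subgroup.mul_mem _ h4 h3

theorem PW_all (hy : y * y = 1) (hq : q ^ (2 ^ m) = y) :
    ∀ w, w ≤ 2 ^ m → PW (Subgroup.normalClosure {y}) w := by
  intro w
  induction w with
  | zero =>
    intro _ j
    refine ⟨fun k hk l _ => ?_, fun k hk => Subgroup.mul_mem _ hk hk⟩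
    exact KS_anti _ (by omega) (KS_comm _ hk l)
  | succ w ih => exact fun h => PW_step hy hq h (ih (by omega))

/-- the depth function -/
def dd (m : ℕ) : ℕ → ℕ
  | 0 => 1
  | l + 1 => min (2 * dd m l) (dd m l + 2 ^ m)

theorem depth (hy : y * y = 1) (hq : q ^ (2 ^ m) = y) (x : H) (l : ℕ) :
    ∀ j, ∀ k ∈ KS (Subgroup.normalClosure {y}) j,
      ⁅k, x ^ (2 ^ l)⁆ ∈ KS (Subgroup.normalClosure {y}) (j + dd m l) := by
  induction l with
  | zero =>
    intro j k hk
    rw [pow_zero, pow_one]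
    exact KS_comm _ hk x
  | succ l ih =>
    intro j k hk
    have h2 := double _ (fun j => (PW_all hy hq _ le_rfl j).2) ih j k hk
    rw [← pow_mul, ← pow_succ] at h2
    exact h2

/-- An involution which is a `2 ^ m`-th power commutes with the `2 ^ l`-th powers. -/
theorem commute_of_depth {n : ℕ} (hH : (⊤ : Subgroup H).lowerCentralSeries n = ⊥) (hy : y * y = 1)
    (hq : q ^ (2 ^ m) = y) (x : H) {l : ℕ} (hl : n ≤ dd m l) :
    y * x ^ (2 ^ l) = x ^ (2 ^ l) * y := by
  have h1 := depth hy hq x l 0 y (Subgroup.subset_normalClosure (Set.mem_singleton y))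
  have h2 := KS_le_lcs _ _ (KS_anti _ (show n ≤ 0 + dd m l by omega) h1)
  rw [hH, Subgroup.mem_bot, commutatorElement_eq_one_iff_mul_comm] at h2
  exact h2

end grow

section numeric

theorem dd_eq (m : ℕ) : ∀ l, l ≤ m + 1 → dd m l = 2 ^ l := by
  intro l
  induction l with
  | zero => exact fun _ => rfl
  | succ l ih =>
    intro h
    rw [dd, ih (by omega), pow_succ]
    have : 2 ^ l ≤ 2 ^ m := Nat.pow_le_pow_right (by norm_num) (by omega)
    omega

theorem dd_ge (m : ℕ) (t : ℕ) : 2 ^ (m + 1) + t * 2 ^ m ≤ dd m (m + 1 + t) := by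
  induction t with
  | zero => rw [Nat.zero_mul, Nat.add_zero, Nat.add_zero, dd_eq m (m + 1) le_rfl]
  | succ t ih =>
    rw [← Nat.add_assoc, dd]
    have h1 : (t + 1) * 2 ^ m = t * 2 ^ m + 2 ^ m := by ring
    have h2 : 2 ^ (m + 1) = 2 * 2 ^ m := by rw [pow_succ, mul_comm]
    rw [h1]
    rcases le_total (2 * dd m (m + 1 + t)) (dd m (m + 1 + t) + 2 ^ m) with h | h
    · rw [min_eq_left h]
      omega
    · rw [min_eq_right h]
      omega

private theorem pow_ge (m : ℕ) (hm : 2 ≤ m) : 3 * m + 2 ≤ 2 ^ (m + 1) := by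
  induction m, hm using Nat.le_induction with
  | base => norm_num
  | succ m hm ih =>
    rw [pow_succ]
    omega

/-- The numerical condition. -/
theorem dd_large {n m k : ℕ} (hn : 2 ≤ n) (hm : m + 2 ≤ n) (hk : n + Nat.log 2 (n - 1) ≤ k) :
    n ≤ dd m (k - m - 1) := by
  set L := Nat.log 2 (n - 1) with hL
  have hL1 : n - 1 < 2 ^ (L + 1) := Nat.lt_pow_succ_log_self (by norm_num) _
  rcases Nat.lt_or_ge (m + 1) (k - m - 1) with h | h
  · obtain ⟨t, ht⟩ := Nat.exists_eq_add_of_lt h
    have e : k - m - 1 = m + 1 + (t + 1) := by omega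
    rw [e]
    refine le_trans ?_ (dd_ge m (t + 1))
    rcases Nat.lt_or_ge m 2 with hm2 | hm2
    · rcases Nat.lt_or_ge m 1 with hm1 | hm1
      · have hm0 : m = 0 := by omega
        subst hm0
        simp only [pow_zero, mul_one, zero_add, pow_one]
        omega
      · have hm0 : m = 1 := by omega
        subst hm0
        have hL0 : 1 ≤ L := by
          by_contra h0
          have h1 : L = 0 := by omega
          rw [h1] at hL1
          norm_num at hL1
          omega
        norm_num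
        omega
    · have h1 := pow_ge m hm2
      have h2 : 4 ≤ 2 ^ m := by
        calc 4 = 2 ^ 2 := by norm_num
          _ ≤ 2 ^ m := Nat.pow_le_pow_right (by norm_num) hm2
      have h3 : (t + 1) * 4 ≤ (t + 1) * 2 ^ m := Nat.mul_le_mul_left _ h2
      omega
  · rw [dd_eq m _ h]
    have h1 : 2 ^ (L + 1) ≤ 2 ^ (k - m - 1) := Nat.pow_le_pow_right (by norm_num) (by omega)
    omega

end numeric

end E1adH4
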