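import Mathlib
import Pool.Agent.Lib.MP_1ad17e_al_h4.Inv
import Pool.Agent.Lib.MP_1ad17e_al_h4.Grow

/-!
MP_1ad17e_al: the elements of depth `i` on the normal closures of involutions, and the commutators of
the `2 ^ l`-th powers of the elements of a subgroup `P` with an involution which is an element of depth
`i` modulo `P`.
-/

set_option autoImplicit false

namespace E1adH4

open Subgroup
open scoped commutatorElement

section lam

variable {H : Type*} [Group H]

/-- The elements `x` of depth `i`: for every involution `c` and every `j`,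
`[K_j(c), x] ≤ K_{j + i}(c)`. -/
def Lam (H : Type*) [Group H] (i : ℕ) : Subgroup H :=
  ⨅ p : {c : H // c * c = 1} × ℕ, cmod (KS (normalClosure {(p.1 : H)}) p.2)
    (KS (normalClosure {(p.1 : H)}) (p.2 + i))

instance Lam_normal (i : ℕ) : (Lam H i).Normal :=
  normal_iInf_normal fun _ => cmod_normal _ _

theorem mem_Lam {i : ℕ} {x : H} : x ∈ Lam H i ↔ ∀ c : H, c * c = 1 → ∀ j,
    ∀ k ∈ KS (normalClosure {c}) j, ⁅k, x⁆ ∈ KS (normalClosure {c}) (j + i) := by
  rw [Lam, mem_iInf]
  constructor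
  · intro h c hc j
    exact h (⟨c, hc⟩, j)
  · rintro h ⟨⟨c, hc⟩, j⟩
    exact h c hc j

theorem dd_zero (l : ℕ) : dd 0 l = l + 1 := by
  induction l with
  | zero => rfl
  | succ l ih =>
    rw [dd, ih, pow_zero]
    omega

theorem pow_mem_Lam (x : H) (l : ℕ) : x ^ (2 ^ l) ∈ Lam H (l + 1) := by
  rw [mem_Lam]
  intro c hc j k hk
  have h := depth (m := 0) (q := c) hc (by rw [pow_zero, pow_one]) x l j k hk
  rwa [dd_zero] at h

theorem KS_le_lcs' {N : Subgroup H} {m : ℕ} (h : N ≤ (⊤ : Subgroup H).lowerCentralSeries m) (j : ℕ) :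
    KS N j ≤ (⊤ : Subgroup H).lowerCentralSeries (m + j) := by
  induction j with
  | zero => exact h
  | succ j ih => exact Subgroup.commutator_mono ih le_rfl

/-- an involution in the `m`-th term of the lower central series and an element of depth `i` -/
theorem comm_Lam {n m i : ℕ} (hH : (⊤ : Subgroup H).lowerCentralSeries n = ⊥) (hmi : n ≤ m + i)
    {z x : H} (hz : z * z = 1) (hzm : z ∈ (⊤ : Subgroup H).lowerCentralSeries m) (hx : x ∈ Lam H i) :
    z * x = x * z := by
  have h1 : normalClosure {z} ≤ (⊤ : Subgroup H).lowerCentralSeries m := by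
    refine normalClosure_le_normal ?_
    rintro _ rfl
    exact hzm
  have h2 := mem_Lam.1 hx z hz 0 z (subset_normalClosure (Set.mem_singleton z))
  have h3 := KS_le_lcs' h1 _ h2
  rw [Nat.zero_add] at h3
  have h4 := Subgroup.lowerCentralSeries_antitone (⊤ : Subgroup H) hmi h3
  rw [hH, Subgroup.mem_bot, commutatorElement_eq_one_iff_mul_comm] at h4
  exact h4

private theorem comm_sq' (a q : H) :
    ⁅a ^ 2, q⁆ = ⁅a, ⁅a, q⁆⁆ * (⁅a, q⁆ * ⁅a, q⁆) := by
  simp only [commutatorElement_def, pow_two]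
  group

private theorem comm_inv' {τ : H} (hτ : τ * τ = 1) (a : H) : ⁅⁅a, τ⁆, τ⁆ = ⁅a, τ⁆ * ⁅a, τ⁆ := by
  have hi : τ⁻¹ = τ := inv_eq_of_mul_eq_one_left hτ
  set c := ⁅a, τ⁆ with hc
  have h3 : τ * c⁻¹ * τ⁻¹ = c := by
    rw [hc]
    simp only [commutatorElement_def, hi, mul_inv_rev, inv_inv]
    calc τ * (τ * (a * (τ * a⁻¹))) * τ = (τ * τ) * a * τ * a⁻¹ * τ := by group
      _ = a * τ * a⁻¹ * τ := by rw [hτ, one_mul]
  calc ⁅c, τ⁆ = c * (τ * c⁻¹ * τ⁻¹) := by rw [commutatorElement_def]; group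
    _ = c * c := by rw [h3]

/-- the commutators with `τ = s x`, `s ∈ P`, `x` of depth `i` -/
theorem core {P : Subgroup H} {τ s x q : H} {i : ℕ} (hi : 1 ≤ i) (hτ : τ * τ = 1)
    (hτP : ∀ u ∈ P, τ * u * τ⁻¹ ∈ P) (hs : s ∈ P) (hx : x ∈ Lam H i) (he : τ = s * x)
    (hq : q ∈ P) (l : ℕ) :
    ⁅q ^ (2 ^ l), τ⁆ ∈ P.lowerCentralSeries l ⊔ KS (normalClosure {τ}) (l + i) := by
  set N := normalClosure {τ} with hN
  induction l with
  | zero =>
    refine mem_sup_left ?_
    rw [pow_zero, pow_one, commutatorElement_def, Subgroup.lowerCentralSeries_zero]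
    have h1 := hτP _ (inv_mem hq)
    have e : q * τ * q⁻¹ * τ⁻¹ = q * (τ * q⁻¹ * τ⁻¹) := by group
    rw [e]
    exact mul_mem hq h1
  | succ l ih =>
    set a := q ^ (2 ^ l) with ha
    have haP : a ∈ P := pow_mem hq _
    have h1 : q ^ (2 ^ (l + 1)) = a ^ 2 := by rw [ha, ← pow_mul, pow_succ]
    rw [h1, comm_sq', ← comm_inv' hτ]
    set g := ⁅a, τ⁆ with hg
    -- `g` has depth `l + 1`
    have hgK : g ∈ KS N (l + 1) := by
      have h2 := depth (m := 0) (q := τ) hτ (by rw [pow_zero, pow_one]) q l 0 τ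
        (subset_normalClosure (Set.mem_singleton τ))
      rw [dd_zero, Nat.zero_add, ← commutatorElement_inv] at h2
      exact inv_mem_iff.1 h2
    obtain ⟨u, hu, w, hw, huw⟩ := (mem_sup_of_normal_right).1 ih
    have huK : u ∈ KS N (l + 1) := by
      have e : u = g * w⁻¹ := by rw [← huw]; group
      rw [e]
      exact mul_mem hgK (inv_mem (KS_anti N (by omega) hw))
    set K' := KS N (l + 1 + i) with hK'
    have hwK : ∀ v : H, ⁅w, v⁆ ∈ K' := fun v => by
      have := KS_comm N hw v
      rwa [show l + i + 1 = l + 1 + i by omega] at this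
    rw [← huw]
    refine mul_mem ?_ ?_
    · -- `⁅a, u * w⁆`
      have e : ⁅a, u * w⁆ = ⁅a, u⁆ * (u * ⁅a, w⁆ * u⁻¹) := by
        simp only [commutatorElement_def]
        group
      rw [e]
      refine mul_mem (mem_sup_left ?_) (mem_sup_right ?_)
      · rw [← commutatorElement_inv]
        exact inv_mem (commutator_mem_commutator hu haP)
      · refine Subgroup.Normal.conj_mem (KS_normal N _) _ ?_ u
        rw [← commutatorElement_inv]
        exact inv_mem (hwK a)
    · -- `⁅u * w, τ⁆`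
      have e : ⁅u * w, τ⁆ = (u * ⁅w, τ⁆ * u⁻¹) * ⁅u, τ⁆ := by
        simp only [commutatorElement_def]
        group
      rw [e]
      refine mul_mem (mem_sup_right ?_) ?_
      · exact Subgroup.Normal.conj_mem (KS_normal N _) _ (hwK τ) u
      · have e2 : ⁅u, τ⁆ = ⁅u, s⁆ * (s * ⁅u, x⁆ * s⁻¹) := by
          rw [he]
          simp only [commutatorElement_def]
          group
        rw [e2]
        refine mul_mem (mem_sup_left ?_) (mem_sup_right ?_)
        · exact commutator_mem_commutator hu hs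
        · refine Subgroup.Normal.conj_mem (KS_normal N _) _ ?_ s
          exact mem_Lam.1 hx τ hτ (l + 1) u huK

end lam

section pgroup

/-- an element of the normaliser whose square lies in `P` -/
theorem exists_t {H : Type*} [Group H] [Finite H] (hH : IsPGroup 2 H) {P E : Subgroup H}
    (hPE : P < E) : ∃ t ∈ E, t ∉ P ∧ t * t ∈ P ∧ ∀ u ∈ P, t * u * t⁻¹ ∈ P := by
  have hE : IsPGroup 2 E := hH.to_subgroup E
  have hEn : Group.IsNilpotent E := hE.isNilpotent
  have h1 : P.subgroupOf E < ⊤ := by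
    rw [lt_top_iff_ne_top]
    intro h
    rw [subgroupOf_eq_top] at h
    exact absurd h (not_le_of_gt hPE)
  have h2 := Group.normalizerCondition_of_isNilpotent _ h1
  obtain ⟨x, hx, hxP⟩ := SetLike.exists_of_lt h2
  have hxP' : (x : H) ∉ P := fun h => hxP (mem_subgroupOf.2 h)
  have hxN : ∀ u ∈ P, (x : H) * u * (x : H)⁻¹ ∈ P := by
    intro u hu
    have h3 := (mem_normalizer_iff.1 hx ⟨u, hPE.le hu⟩).1 (mem_subgroupOf.2 hu)
    exact mem_subgroupOf.1 h3
  have hpow : ∀ j : ℕ, ∀ u ∈ P, (x : H) ^ j * u * ((x : H) ^ j)⁻¹ ∈ P := by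
    intro j
    induction j with
    | zero =>
      intro u hu
      simpa using hu
    | succ j ih =>
      intro u hu
      have h4 := hxN _ (ih u hu)
      have e : (x : H) ^ (j + 1) * u * ((x : H) ^ (j + 1))⁻¹ =
          x * ((x : H) ^ j * u * ((x : H) ^ j)⁻¹) * (x : H)⁻¹ := by
        rw [pow_succ']
        group
      rw [e]
      exact h4
  obtain ⟨a, ha⟩ := hH (x : H)
  have hex : ∃ j, (x : H) ^ (2 ^ j) ∈ P := ⟨a, by rw [ha]; exact one_mem _⟩
  classical
  have hj := Nat.find_spec hex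
  have hj0 : Nat.find hex ≠ 0 := by
    intro h0
    rw [h0, pow_zero, pow_one] at hj
    exact hxP' hj
  obtain ⟨j, hj'⟩ := Nat.exists_eq_succ_of_ne_zero hj0
  refine ⟨(x : H) ^ (2 ^ j), pow_mem x.2 _, Nat.find_min hex (by omega), ?_, hpow _⟩
  rw [hj', Nat.succ_eq_add_one, pow_succ, pow_mul, pow_two] at hj
  exact hj

/-- reflections in a dihedral group -/
theorem dihedral {Q : Type*} [Group Q] {b t : Q} (hb : b * b = 1) (ht : t * t = 1) {g : Q}
    (hg : g ∈ closure {b, t}) : ∃ j : ℤ, g * b * g⁻¹ = (b * t) ^ j * b := by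
  have hbi : b⁻¹ = b := inv_eq_of_mul_eq_one_left hb
  have hti : t⁻¹ = t := inv_eq_of_mul_eq_one_left ht
  set u := b * t with hu
  have hui : u⁻¹ = t * b := by rw [hu, mul_inv_rev, hbi, hti]
  have hbu : b * u * b⁻¹ = u⁻¹ := by
    rw [hui, hu, hbi]
    calc b * (b * t) * b = (b * b) * t * b := by group
      _ = t * b := by rw [hb, one_mul]
  have htu : t * u * t⁻¹ = u⁻¹ := by
    rw [hui, hu, hti]
    calc t * (b * t) * t = t * b * (t * t) := by group
      _ = t * b := by rw [ht, mul_one]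
  have key : ∀ g ∈ closure {b, t}, (g * u * g⁻¹ = u ∨ g * u * g⁻¹ = u⁻¹) ∧
      ∃ j : ℤ, g * b * g⁻¹ = u ^ j * b := by
    intro g hg
    refine closure_induction (p := fun g _ => (g * u * g⁻¹ = u ∨ g * u * g⁻¹ = u⁻¹) ∧
      ∃ j : ℤ, g * b * g⁻¹ = u ^ j * b) ?_ ?_ ?_ ?_ hg
    · rintro g (rfl | rfl)
      · refine ⟨Or.inr hbu, 0, ?_⟩
        group
      · refine ⟨Or.inr htu, -2, ?_⟩
        have e : u ^ (-2 : ℤ) = u⁻¹ * u⁻¹ := by
          rw [show (-2 : ℤ) = -1 + -1 by norm_num, zpow_add, zpow_neg_one]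
        rw [e, hui, hti]
        calc g * b * g = g * b * g * (b * b) := by rw [hb, mul_one]
          _ = g * b * (g * b) * b := by group
    · refine ⟨Or.inl (by group), 0, by group⟩
    · rintro x y - - ⟨hx1, jx, hx2⟩ ⟨hy1, jy, hy2⟩
      constructor
      · have e : x * y * u * (x * y)⁻¹ = x * (y * u * y⁻¹) * x⁻¹ := by group
        rw [e]
        rcases hy1 with h | h
        · rw [h]
          exact hx1
        · rw [h]
          have e2 : x * u⁻¹ * x⁻¹ = (x * u * x⁻¹)⁻¹ := by group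
          rw [e2]
          rcases hx1 with h' | h'
          · right
            rw [h']
          · left
            rw [h', inv_inv]
      · have e : x * y * b * (x * y)⁻¹ = x * (y * b * y⁻¹) * x⁻¹ := by group
        have e2 : x * (u ^ jy * b) * x⁻¹ = (x * u * x⁻¹) ^ jy * (x * b * x⁻¹) := by
          rw [conj_zpow]
          group
        rw [e, hy2, e2, hx2]
        rcases hx1 with h | h
        · refine ⟨jy + jx, ?_⟩
          rw [h, zpow_add]
          group
        · refine ⟨-jy + jx, ?_⟩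
          rw [h, zpow_add, zpow_neg, inv_zpow]
          group
    · rintro x - ⟨hx1, jx, hx2⟩
      have h1 : x⁻¹ * u * x = u ∨ x⁻¹ * u * x = u⁻¹ := by
        rcases hx1 with h | h
        · left
          conv_lhs => rw [← h]
          group
        · right
          have : u = (x * u * x⁻¹)⁻¹ := by rw [h, inv_inv]
          conv_lhs => rw [this]
          group
      have h2 : x⁻¹ * b * x = (x⁻¹ * u * x) ^ (-jx) * b := by
        have e : x⁻¹ * (x * b * x⁻¹) * x = b := by group
        rw [hx2] at e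
        have e2 : x⁻¹ * (u ^ jx * b) * x = (x⁻¹ * u * x) ^ jx * (x⁻¹ * b * x) := by
          have := conj_zpow (i := jx) (a := x⁻¹) (b := u)
          rw [inv_inv] at this
          rw [this]
          group
        rw [e2] at e
        rw [zpow_neg]
        exact eq_inv_mul_of_mul_eq e
      refine ⟨by rw [inv_inv]; exact h1, ?_⟩
      rw [inv_inv, h2]
      rcases h1 with h | h
      · exact ⟨-jx, by rw [h]⟩
      · refine ⟨jx, ?_⟩
        rw [h, zpow_neg, inv_zpow, inv_inv]
  exact (key g hg).2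

end pgroup

end E1adH4
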