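import Mathlib
import Pool.Agent.Lib.MP_1ad17e_al_h4.Inv
import Pool.Agent.Lib.MP_1ad17e_al_h4.Grow

/-!
MP_1ad17e_al: involutions which are `2 ^ k`-th powers, `k = n + log2 (n - 1)`.
-/

set_option autoImplicit false

namespace E1adH4

open Subgroup
open scoped commutatorElement

section main

variable {G : Type*} [Group G] [Finite G]

/-- `commute_of_depth` in the 2-subgroups of a finite group. -/
theorem depth_of_sylow {n : ℕ} (T : Sylow 2 G)
    (hT : Group.nilpotencyClass (T : Subgroup G) ≤ n) {P : Subgroup G} (hP : IsPGroup 2 P)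
    {x q y : G} {m l : ℕ} (hx : x ∈ P) (hqP : q ∈ P) (hy : y * y = 1) (hq : q ^ (2 ^ m) = y)
    (hl : n ≤ dd m l) : y * x ^ (2 ^ l) = x ^ (2 ^ l) * y := by
  have hTn : Group.IsNilpotent (T : Subgroup G) := T.isPGroup'.isNilpotent
  have hlcs : (⊤ : Subgroup (T : Subgroup G)).lowerCentralSeries n = ⊥ :=
    Subgroup.lowerCentralSeries_eq_bot_iff_nilpotencyClass_le.2 hT
  obtain ⟨S, hS⟩ := hP.exists_le_sylow
  obtain ⟨g, hg⟩ := MulAction.exists_smul_eq G S T
  have hmem : ∀ z ∈ P, g * z * g⁻¹ ∈ (T : Subgroup G) := by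
    intro z hz
    have h1 : z ∈ (S : Subgroup G) := hS hz
    rw [← hg]
    exact ⟨z, h1, rfl⟩
  have hyP : y ∈ P := by
    rw [← hq]
    exact pow_mem hqP _
  have hy' : (⟨g * y * g⁻¹, hmem y hyP⟩ : (T : Subgroup G)) * ⟨g * y * g⁻¹, hmem y hyP⟩ = 1 := by
    apply Subtype.ext
    change g * y * g⁻¹ * (g * y * g⁻¹) = 1
    calc g * y * g⁻¹ * (g * y * g⁻¹) = g * (y * y) * g⁻¹ := by group
      _ = 1 := by rw [hy]; group
  have hq' : (⟨g * q * g⁻¹, hmem q hqP⟩ : (T : Subgroup G)) ^ (2 ^ m) =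
      ⟨g * y * g⁻¹, hmem y hyP⟩ := by
    apply Subtype.ext
    change (g * q * g⁻¹) ^ (2 ^ m) = g * y * g⁻¹
    rw [conj_pow, hq]
  have h1 := commute_of_depth hlcs hy' hq' ⟨g * x * g⁻¹, hmem x hx⟩ hl
  have h2 := congrArg Subtype.val h1
  change g * y * g⁻¹ * (g * x * g⁻¹) ^ (2 ^ l) = (g * x * g⁻¹) ^ (2 ^ l) * (g * y * g⁻¹) at h2
  rw [conj_pow] at h2
  have h3 : g * (y * x ^ (2 ^ l)) * g⁻¹ = g * (x ^ (2 ^ l) * y) * g⁻¹ := by
    calc g * (y * x ^ (2 ^ l)) * g⁻¹ = g * y * g⁻¹ * (g * x ^ (2 ^ l) * g⁻¹) := by group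
      _ = g * x ^ (2 ^ l) * g⁻¹ * (g * y * g⁻¹) := h2
      _ = g * (x ^ (2 ^ l) * y) * g⁻¹ := by group
  exact mul_left_cancel (mul_right_cancel h3)

/-- Sylow subgroups of a subgroup `H`. -/
theorem exists_syl (H R : Subgroup G) (hR : IsPGroup 2 R) (hRH : R ≤ H) :
    ∃ P : Subgroup G, IsPGroup 2 P ∧ R ≤ P ∧ P ≤ H ∧ ∀ X : Subgroup G, IsPGroup 2 X → X ≤ H →
      ∃ c ∈ H, ∀ z ∈ X, c * z * c⁻¹ ∈ P := by
  have h1 : IsPGroup 2 (R.subgroupOf H) := hR.comap_subtype
  obtain ⟨S, hS⟩ := h1.exists_le_sylow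
  refine ⟨(S : Subgroup H).map H.subtype, S.isPGroup'.map H.subtype, ?_, ?_, ?_⟩
  · intro z hz
    exact ⟨⟨z, hRH hz⟩, hS (mem_subgroupOf.2 hz), rfl⟩
  · rintro _ ⟨z, -, rfl⟩
    exact z.2
  · intro X hX hXH
    have h2 : IsPGroup 2 (X.subgroupOf H) := hX.comap_subtype
    obtain ⟨S', hS'⟩ := h2.exists_le_sylow
    obtain ⟨c, hc⟩ := MulAction.exists_smul_eq H S' S
    refine ⟨c, c.2, ?_⟩
    intro z hz
    have h3 : (⟨z, hXH hz⟩ : H) ∈ (S' : Subgroup H) := hS' (mem_subgroupOf.2 hz)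
    refine ⟨c * ⟨z, hXH hz⟩ * c⁻¹, ?_, rfl⟩
    rw [← hc]
    exact ⟨⟨z, hXH hz⟩, h3, rfl⟩

omit [Finite G] in
theorem pgrp_of_pow {u : G} {m : ℕ} (hu : u ^ (2 ^ m) = 1) : IsPGroup 2 (zpowers u) := by
  have : Nat.card (zpowers u) ∣ 2 ^ m := by
    rw [Nat.card_zpowers]
    exact orderOf_dvd_of_pow_eq_one hu
  obtain ⟨i, -, hi⟩ := (Nat.dvd_prime_pow Nat.prime_two).1 this
  exact IsPGroup.of_card hi

/-- The key step: there is no involution `b` which exchanges `y` and `y z`. -/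
theorem key_two {n k : ℕ} (hn : 2 ≤ n) (hk : n + Nat.log 2 (n - 1) ≤ k) (T : Sylow 2 G)
    (hT : Group.nilpotencyClass (T : Subgroup G) ≤ n) {y z b r : G} (hr : r ^ (2 ^ k) = y)
    (hy : y * y = 1) (hz : z * z = 1) (hb : b * b = 1) (hyz : y * z = z * y)
    (hbz : b * z * b⁻¹ = z) (hby : b * y * b⁻¹ = y * z) : z = 1 := by
  by_contra hne
  have hzi : z⁻¹ = z := inv_eq_of_mul_eq_one_left hz
  -- the Sylow subgroup of the stabiliser
  obtain ⟨P, hP, hbP, hPs, hPc⟩ := exists_syl (stab y z hz) (zpowers b)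
    (pgrp_of_pow (m := 1) (by rw [pow_one, pow_two, hb]))
    (by
      rw [zpowers_le]
      exact ⟨hbz, Or.inr hby⟩)
  have hbP : b ∈ P := hbP (mem_zpowers b)
  have hzs : z ∈ stab y z hz := ⟨by group, Or.inl (by rw [← hyz]; group)⟩
  have hzP : z ∈ P := by
    obtain ⟨c, hc, h⟩ := hPc (zpowers z) (pgrp_of_pow (m := 1) (by rw [pow_one, pow_two, hz]))
      (by
        rw [zpowers_le]
        exact hzs)
    have := h z (mem_zpowers z)
    rwa [hc.1] at this
  set P0 := P ⊓ centralizer {y} with hP0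
  have hzP0 : z ∈ P0 := mem_inf.2 ⟨hzP, mem_centralizer_singleton_iff.2 hyz.symm⟩
  have hP0p : IsPGroup 2 P0 := hP.to_le inf_le_left
  obtain ⟨S, hS, hP0S, hSc, hSsyl⟩ := exists_syl (centralizer {y}) P0 hP0p inf_le_right
  -- the conjugate of `r` in `S`
  have hr2 : r ^ (2 ^ (k + 1)) = 1 := by rw [pow_succ, pow_mul, hr, pow_two, hy]
  obtain ⟨c, hc, hcr⟩ := hSsyl (zpowers r) (pgrp_of_pow hr2) (by
    rw [zpowers_le, mem_centralizer_singleton_iff, ← hr]
    exact (Commute.self_pow r _).eq)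
  have hcy : c * y * c⁻¹ = y := by
    rw [mem_centralizer_singleton_iff.1 hc]
    group
  set r1 := c * r * c⁻¹ with hr1
  have hr1S : r1 ∈ S := hcr r (mem_zpowers r)
  have hr1y : r1 ^ (2 ^ k) = y := by rw [hr1, conj_pow, hr, hcy]
  -- the centraliser of `z` in `S`
  have hX : S ⊓ centralizer {z} = P0 := by
    obtain ⟨d, hd, h⟩ := hPc (S ⊓ centralizer {z}) (hS.to_le inf_le_left) (by
      intro x hx
      have h1 : x * y = y * x := mem_centralizer_singleton_iff.1 (hSc hx.1)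
      have h2 : x * z = z * x := mem_centralizer_singleton_iff.1 hx.2
      exact ⟨by rw [h2]; group, Or.inl (by rw [h1]; group)⟩)
    have h1 : ∀ x ∈ S ⊓ centralizer {z}, d * x * d⁻¹ ∈ P0 := by
      intro x hx
      refine mem_inf.2 ⟨h x hx, mem_centralizer_singleton_iff.2 ?_⟩
      have h1 : x * y = y * x := mem_centralizer_singleton_iff.1 (hSc hx.1)
      have h2 : x * z = z * x := mem_centralizer_singleton_iff.1 hx.2
      have h3 : (d * x * d⁻¹) * z = z * (d * x * d⁻¹) := by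
        calc (d * x * d⁻¹) * z = (d * x * d⁻¹) * (d * z * d⁻¹) := by rw [hd.1]
          _ = d * (x * z) * d⁻¹ := by group
          _ = d * (z * x) * d⁻¹ := by rw [h2]
          _ = (d * z * d⁻¹) * (d * x * d⁻¹) := by group
          _ = z * (d * x * d⁻¹) := by rw [hd.1]
      have h4 : (d * x * d⁻¹) * (d * y * d⁻¹) = (d * y * d⁻¹) * (d * x * d⁻¹) := by
        calc (d * x * d⁻¹) * (d * y * d⁻¹) = d * (x * y) * d⁻¹ := by group
          _ = d * (y * x) * d⁻¹ := by rw [h1]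
          _ = (d * y * d⁻¹) * (d * x * d⁻¹) := by group
      rcases hd.2 with h5 | h5
      · rwa [h5] at h4
      · rw [h5] at h4
        have h6 : y = (y * z) * z := by rw [mul_assoc, hz, mul_one]
        calc (d * x * d⁻¹) * y = ((d * x * d⁻¹) * (y * z)) * z := by
              conv_lhs => rw [h6]
              group
          _ = ((y * z) * (d * x * d⁻¹)) * z := by rw [h4]
          _ = (y * z) * ((d * x * d⁻¹) * z) := by group
          _ = (y * z) * (z * (d * x * d⁻¹)) := by rw [h3]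
          _ = ((y * z) * z) * (d * x * d⁻¹) := by group
          _ = y * (d * x * d⁻¹) := by rw [← h6]
    have hcard : Nat.card (S ⊓ centralizer {z} : Subgroup G) ≤ Nat.card P0 := by
      refine Nat.card_le_card_of_injective
        (fun x : (S ⊓ centralizer {z} : Subgroup G) => (⟨d * x * d⁻¹, h1 x x.2⟩ : P0)) ?_
      intro u v huv
      have h := congrArg Subtype.val huv
      exact Subtype.ext (mul_left_cancel (mul_right_cancel h))
    have hle : P0 ≤ S ⊓ centralizer {z} := by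
      refine le_inf hP0S ?_
      intro x hx
      rw [mem_centralizer_singleton_iff]
      have h1 := (hPs hx.1).1
      calc x * z = (x * z * x⁻¹) * x := by group
        _ = z * x := by rw [h1]
    exact (Subgroup.eq_of_le_of_card_ge hle hcard).symm
  -- the least power
  have hzS : z ∈ S := hP0S hzP0
  have hex : ∃ i, r1 ^ (2 ^ i) * z = z * r1 ^ (2 ^ i) :=
    ⟨n - 1, commute_of_sylow (by omega) T hT hS hr1S hzS hz⟩
  classical
  let i := Nat.find hex
  have hi : r1 ^ (2 ^ i) * z = z * r1 ^ (2 ^ i) := Nat.find_spec hex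
  have hin : i ≤ n - 1 :=
    Nat.find_min' hex (commute_of_sylow (by omega) T hT hS hr1S hzS hz)
  set p := r1 ^ (2 ^ i) with hp
  have hpP0 : p ∈ P0 := by
    rw [← hX]
    exact mem_inf.2 ⟨pow_mem hr1S _, mem_centralizer_singleton_iff.2 hi⟩
  obtain ⟨m, hm⟩ := Nat.exists_eq_add_of_le (show i ≤ k by omega)
  have hpy : p ^ (2 ^ m) = y := by
    rw [hp, ← pow_mul, ← pow_add, ← hm, hr1y]
  have hyb : y * b ≠ b * y := by
    intro h
    apply hne
    have h1 : b * y * b⁻¹ = y := by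
      rw [← h]
      group
    rw [hby] at h1
    exact mul_eq_left.1 h1
  have hmn : m + 2 ≤ n := by
    by_contra hlt
    apply hyb
    have h1 := commute_of_sylow (by omega) T hT hP hpP0.1 hbP hb
    have h2 : y = (p ^ (2 ^ (n - 1))) ^ (2 ^ (m - (n - 1))) := by
      rw [← pow_mul, ← pow_add, ← hpy]
      congr 2
      omega
    rw [h2]
    exact ((show Commute (p ^ (2 ^ (n - 1))) b from h1).pow_left _).eq
  have hi1 : 1 ≤ i := by omega
  -- the other power
  set q := b * p * b⁻¹ with hq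
  have hqy : q ^ (2 ^ m) = y * z := by rw [hq, conj_pow, hpy, hby]
  have hpS : p ∈ S := hP0S hpP0
  have hpy' : p * y = y * p := mem_centralizer_singleton_iff.1 hpP0.2
  have hqP0 : q ∈ P0 := by
    refine mem_inf.2 ⟨mul_mem (mul_mem hbP hpP0.1) (inv_mem hbP),
      mem_centralizer_singleton_iff.2 ?_⟩
    have h1 : b * (y * z) * b⁻¹ = y := by
      calc b * (y * z) * b⁻¹ = (b * y * b⁻¹) * (b * z * b⁻¹) := by group
        _ = y := by rw [hby, hbz, mul_assoc, hz, mul_one]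
    have h2 : p * (y * z) = (y * z) * p := by
      calc p * (y * z) = (p * y) * z := by group
        _ = y * (p * z) := by rw [hpy']; group
        _ = (y * z) * p := by rw [hi]; group
    calc q * y = (b * p * b⁻¹) * (b * (y * z) * b⁻¹) := by rw [h1]
      _ = b * (p * (y * z)) * b⁻¹ := by group
      _ = b * ((y * z) * p) * b⁻¹ := by rw [h2]
      _ = (b * (y * z) * b⁻¹) * (b * p * b⁻¹) := by group
      _ = y * q := by rw [h1]
  have hyz2 : (y * z) * (y * z) = 1 := by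
    calc (y * z) * (y * z) = y * (z * y) * z := by group
      _ = (y * y) * (z * z) := by rw [← hyz]; group
      _ = 1 := by rw [hy, hz, one_mul]
  have h1 := depth_of_sylow T hT hS (l := i - 1) hr1S (hP0S hqP0) hyz2 hqy (by
    have := dd_large hn hmn hk
    have e : k - m - 1 = i - 1 := by omega
    rwa [e] at this)
  have h2 : y * r1 ^ (2 ^ (i - 1)) = r1 ^ (2 ^ (i - 1)) * y := by
    rw [← hr1y]
    exact ((Commute.refl r1).pow_pow _ _).eq
  have h3 : r1 ^ (2 ^ (i - 1)) * z = z * r1 ^ (2 ^ (i - 1)) := by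
    have h4 : z = y * (y * z) := by rw [← mul_assoc, hy, one_mul]
    calc r1 ^ (2 ^ (i - 1)) * z = (r1 ^ (2 ^ (i - 1)) * y) * (y * z) := by
          conv_lhs => rw [h4]
          group
      _ = y * (r1 ^ (2 ^ (i - 1)) * (y * z)) := by rw [← h2]; group
      _ = y * ((y * z) * r1 ^ (2 ^ (i - 1))) := by rw [h1]
      _ = (y * (y * z)) * r1 ^ (2 ^ (i - 1)) := by group
      _ = z * r1 ^ (2 ^ (i - 1)) := by rw [← h4]
  exact Nat.find_min hex (show i - 1 < Nat.find hex by
    change i - 1 < i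
    omega) h3

end main

section reduction

variable {G : Type*} [Group G]

/-- The reduction to the dihedral group of order eight. -/
theorem commute_of_key {y : G} (hkey : ∀ z b : G, z * z = 1 → b * b = 1 → y * z = z * y →
    b * z * b⁻¹ = z → b * y * b⁻¹ = y * z → z = 1) {b : G}
    (hy : y * y = 1) (hb : b * b = 1) {P : Subgroup G} (hP : IsPGroup 2 P) (hyP : y ∈ P)
    (hbP : b ∈ P) : y * b = b * y := by
  have hyi : y⁻¹ = y := inv_eq_of_mul_eq_one_left hy
  have hbi : b⁻¹ = b := inv_eq_of_mul_eq_one_left hb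
  set u := y * b with hu
  have huP : u ∈ P := mul_mem hyP hbP
  have hyu : y * u * y⁻¹ = u⁻¹ := by
    rw [hu, mul_inv_rev, hyi, hbi]
    calc y * (y * b) * y = (y * y) * (b * y) := by group
      _ = b * y := by rw [hy, one_mul]
  obtain ⟨m, hm⟩ := hP ⟨u, huP⟩
  have hm' : u ^ (2 ^ m) = 1 := congrArg Subtype.val hm
  by_contra hne
  -- the order of `u` is divisible by four
  have hex : ∃ j, u ^ (2 ^ (j + 1)) = 1 := ⟨m, by rw [pow_succ, pow_mul, hm', one_pow]⟩
  classical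
  let j := Nat.find hex
  have hj : u ^ (2 ^ (j + 1)) = 1 := Nat.find_spec hex
  have hjmin : ∀ i, i < j → u ^ (2 ^ (i + 1)) ≠ 1 := fun i hi => Nat.find_min hex hi
  have hj0 : j ≠ 0 := by
    intro h0
    rw [h0, zero_add, pow_one, pow_two] at hj
    apply hne
    have h1 : u = u⁻¹ := eq_inv_of_mul_eq_one_left hj
    rw [h1, hu, mul_inv_rev, hyi, hbi]
  obtain ⟨i, hi⟩ := Nat.exists_eq_succ_of_ne_zero hj0
  set c := u ^ (2 ^ i) with hc
  have hc2 : c * c ≠ 1 := by
    have := hjmin i (by omega)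
    rwa [pow_succ, pow_mul, ← hc, pow_two] at this
  have hc4 : (c * c) * (c * c) = 1 := by
    have h1 : u ^ (2 ^ (i + 1 + 1)) = 1 := by
      have := hj
      rwa [hi] at this
    rw [pow_succ 2 (i + 1), pow_succ 2 i, pow_mul, pow_mul, ← hc, pow_two, pow_two] at h1
    exact h1
  have hyc : y * c * y⁻¹ = c⁻¹ := by
    rw [hc, ← conj_pow, hyu, inv_pow]
  have hyc' : y * c = c⁻¹ * y := by
    rw [← hyc]
    group
  apply hc2
  have hycc : y * (c * c) = (c * c) * y := by
    calc y * (c * c) = (y * c) * c := by group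
      _ = c⁻¹ * y * c := by rw [hyc']
      _ = c⁻¹ * (y * c) := by group
      _ = c⁻¹ * (c⁻¹ * y) := by rw [hyc']
      _ = (c * c)⁻¹ * y := by group
      _ = (c * c) * y := by rw [inv_eq_of_mul_eq_one_left hc4]
  refine hkey (c * c) (y * c) hc4 ?_ hycc ?_ ?_
  · calc y * c * (y * c) = c⁻¹ * y * (y * c) := by rw [hyc']
      _ = c⁻¹ * (y * y) * c := by group
      _ = 1 := by rw [hy]; group
  · calc y * c * (c * c) * (y * c)⁻¹ = y * (c * c) * y⁻¹ := by group
      _ = (y * c * y⁻¹) * (y * c * y⁻¹) := by group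
      _ = c⁻¹ * c⁻¹ := by rw [hyc]
      _ = (c * c)⁻¹ := by group
      _ = c * c := inv_eq_of_mul_eq_one_left hc4
  · calc y * c * y * (y * c)⁻¹ = (y * c * y) * (c⁻¹ * y⁻¹) := by group
      _ = (y * c * y⁻¹) * (c⁻¹ * y⁻¹) := by rw [hyi]
      _ = c⁻¹ * c⁻¹ * y⁻¹ := by rw [hyc]; group
      _ = (c * c)⁻¹ * y := by rw [hyi]; group
      _ = (c * c) * y := by rw [inv_eq_of_mul_eq_one_left hc4]
      _ = y * (c * c) := hycc.symm

end reduction

/-- The condition that every `y` with `y ^ 2 = 1` which is a `2 ^ k`-th power commutes with the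
involutions which lie together with `y` in a 2-subgroup. -/
def Good (G : Type*) [Group G] (k : ℕ) : Prop :=
  ∀ y r b : G, y * y = 1 → r ^ (2 ^ k) = y → b * b = 1 →
    ∀ P : Subgroup G, IsPGroup 2 P → y ∈ P → b ∈ P → y * b = b * y

theorem good_of_log {G : Type*} [Group G] [Finite G] {n k : ℕ} (hn : 2 ≤ n)
    (hk : n + Nat.log 2 (n - 1) ≤ k) (T : Sylow 2 G)
    (hT : Group.nilpotencyClass (T : Subgroup G) ≤ n) : Good G k := by
  intro y r b hy hr hb P hP hyP hbP
  exact commute_of_key (fun z b hz hb hyz hbz hby => key_two hn hk T hT hr hy hz hb hyz hbz hby)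
    hy hb hP hyP hbP

end E1adH4
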