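import Mathlib
import Pool.Agent.Lib.MP_1ad17e_al_h4.InvTwo

/-!
MP_1ad17e_al: the strongly closed subgroup generated by the involutions which are large 2-power powers.
-/

set_option autoImplicit false

namespace E1adH4

open Subgroup

/-- `A` is a subgroup of `T` which is strongly closed in `T` with respect to `G`. -/
def StronglyClosed {G : Type*} [Group G] (T A : Subgroup G) : Prop :=
  A ≤ T ∧ ∀ a ∈ A, ∀ g : G, g * a * g⁻¹ ∈ T → g * a * g⁻¹ ∈ A

/-- The subgroup generated by the elements `y` of `T` with `y ^ 2 = 1` which are `2 ^ k`-th powers of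
elements of `G`. -/
def rootInv {G : Type*} [Group G] (T : Subgroup G) (k : ℕ) : Subgroup G :=
  closure {y | y ∈ T ∧ y ^ 2 = 1 ∧ ∃ r : G, r ^ (2 ^ k) = y}

section

variable {G : Type*} [Group G]

theorem rootInv_le (T : Subgroup G) (k : ℕ) : rootInv T k ≤ T := by
  rw [rootInv, closure_le]
  exact fun y hy => hy.1

theorem rootInv_mono {T T' : Subgroup G} {k : ℕ} (h : rootInv T k ≤ T') :
    rootInv T k ≤ rootInv T' k := by
  have h1 : ∀ y, y ∈ {y | y ∈ T ∧ y ^ 2 = 1 ∧ ∃ r : G, r ^ (2 ^ k) = y} → y ∈ rootInv T' k := by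
    intro y hy
    refine subset_closure ⟨h (subset_closure hy), hy.2⟩
  rw [rootInv, closure_le]
  exact h1

/-- the image under the conjugation by `g` -/
theorem rootInv_conj (T : Subgroup G) (k : ℕ) (g : G) {T' : Subgroup G}
    (h : ∀ z ∈ rootInv T k, g * z * g⁻¹ ∈ T') : ∀ z ∈ rootInv T k, g * z * g⁻¹ ∈ rootInv T' k := by
  intro z hz
  have h1 : rootInv T k ≤ (rootInv T' k).comap (MulAut.conj g).toMonoidHom := by
    have h2 : ∀ y, y ∈ {y | y ∈ T ∧ y ^ 2 = 1 ∧ ∃ r : G, r ^ (2 ^ k) = y} →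
        g * y * g⁻¹ ∈ rootInv T' k := by
      intro y hy
      refine subset_closure ⟨h y (subset_closure hy), ?_, ?_⟩
      · rw [conj_pow, hy.2.1]
        group
      · obtain ⟨r, hr⟩ := hy.2.2
        exact ⟨g * r * g⁻¹, by rw [conj_pow, hr]⟩
    conv_lhs => rw [rootInv]
    rw [closure_le]
    exact h2
  exact h1 hz

variable [Finite G]

theorem rootInv_commute {k : ℕ} (hG : Good G k) (T : Sylow 2 G) {b : G}
    (hb : b ∈ (T : Subgroup G)) (hb2 : b * b = 1) {z : G} (hz : z ∈ rootInv (T : Subgroup G) k) :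
    z * b = b * z := by
  have h1 : rootInv (T : Subgroup G) k ≤ centralizer {b} := by
    rw [rootInv, closure_le]
    rintro y ⟨hy1, hy2, r, hr⟩
    rw [SetLike.mem_coe, mem_centralizer_singleton_iff]
    exact hG y r b (by rw [← pow_two, hy2]) hr hb2 _ T.isPGroup' hy1 hb
  exact mem_centralizer_singleton_iff.1 (h1 hz)

theorem rootInv_sq {k : ℕ} (hG : Good G k) (T : Sylow 2 G) {z : G}
    (hz : z ∈ rootInv (T : Subgroup G) k) : z * z = 1 := by
  refine closure_induction (p := fun z _ => z * z = 1) ?_ ?_ ?_ ?_ hz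
  · rintro y ⟨hy1, hy2, -⟩
    rw [← pow_two, hy2]
  · exact one_mul 1
  · intro x y hx hy hx2 hy2
    have h := rootInv_commute hG T (rootInv_le _ _ hy) hy2 hx
    calc x * y * (x * y) = x * (y * x) * y := by group
      _ = x * (x * y) * y := by rw [h]
      _ = (x * x) * (y * y) := by group
      _ = 1 := by rw [hx2, hy2, one_mul]
  · intro x hx hx2
    rw [← mul_inv_rev, hx2, inv_one]

/-- The subgroup generated by the involutions of `T` which are `2 ^ k`-th powers in `G` is
strongly closed. -/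
theorem rootInv_stronglyClosed {k : ℕ} (hG : Good G k) (T : Sylow 2 G) :
    StronglyClosed (T : Subgroup G) (rootInv (T : Subgroup G) k) := by
  set W := rootInv (T : Subgroup G) k with hW
  refine ⟨rootInv_le _ _, fun w hw g hg => ?_⟩
  set v := g * w * g⁻¹ with hv
  have hv2 : v * v = 1 := by
    have h := rootInv_sq hG T hw
    calc v * v = g * (w * w) * g⁻¹ := by rw [hv]; group
      _ = 1 := by rw [h]; group
  -- the image of `W` under the conjugation by `g`
  have hWP : IsPGroup 2 W := T.isPGroup'.to_le (rootInv_le _ _)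
  have hW'P : IsPGroup 2 (W.map (MulAut.conj g).toMonoidHom) := hWP.map _
  obtain ⟨c, hc, P, hP, h1, -, h2⟩ := exists_common (centralizer {v}) W
    (W.map (MulAut.conj g).toMonoidHom) hWP hW'P
    (by
      intro z hz
      rw [mem_centralizer_singleton_iff]
      exact rootInv_commute hG T hg hv2 hz)
    (by
      rintro _ ⟨z, hz, rfl⟩
      rw [mem_centralizer_singleton_iff]
      change g * z * g⁻¹ * v = v * (g * z * g⁻¹)
      have h := rootInv_commute hG T (rootInv_le _ _ hz) (rootInv_sq hG T hz) hw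
      calc g * z * g⁻¹ * v = g * (z * w) * g⁻¹ := by rw [hv]; group
        _ = g * (w * z) * g⁻¹ := by rw [h]
        _ = v * (g * z * g⁻¹) := by rw [hv]; group)
  obtain ⟨S, hS⟩ := hP.exists_le_sylow
  obtain ⟨x, hx⟩ := MulAction.exists_smul_eq G S T
  -- the subgroup of `S`
  set WS := rootInv (S : Subgroup G) k with hWS
  have hSx : ∀ z ∈ (S : Subgroup G), x * z * x⁻¹ ∈ (T : Subgroup G) := by
    intro z hz
    rw [← hx]
    exact ⟨z, hz, rfl⟩
  have hcard : Nat.card WS ≤ Nat.card W := by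
    refine Nat.card_le_card_of_injective
      (fun z : WS => (⟨x * z * x⁻¹, rootInv_conj (S : Subgroup G) k x
        (fun z hz => hSx z (rootInv_le _ _ hz)) z z.2⟩ : W)) ?_
    intro a b hab
    have h := congrArg Subtype.val hab
    exact Subtype.ext (mul_left_cancel (mul_right_cancel h))
  have e1 : W = WS := by
    have hle : W ≤ WS := rootInv_mono (h1.trans hS)
    exact Subgroup.eq_of_le_of_card_ge hle hcard
  -- the conjugate of `W` by `c g`
  have h3 : ∀ z ∈ W, (c * g) * z * (c * g)⁻¹ ∈ WS := by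
    refine rootInv_conj (T : Subgroup G) k (c * g) fun z hz => hS ?_
    have := h2 (g * z * g⁻¹) ⟨z, hz, rfl⟩
    have e : c * g * z * (c * g)⁻¹ = c * (g * z * g⁻¹) * c⁻¹ := by group
    rw [e]
    exact this
  have h4 := h3 w hw
  have hcv : c * v = v * c := mem_centralizer_singleton_iff.1 hc
  have e2 : (c * g) * w * (c * g)⁻¹ = v := by
    calc (c * g) * w * (c * g)⁻¹ = (c * v) * c⁻¹ := by rw [hv]; group
      _ = v := by rw [hcv]; group
  rw [e2, ← e1] at h4
  exact h4

/-- The bound for the exponent. -/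
theorem exponent_dvd {k : ℕ} (hG : Good G k) (T : Sylow 2 G)
    (hSC : ∀ A : Subgroup G, StronglyClosed (T : Subgroup G) A → (∀ x ∈ A, ∀ y ∈ A, x * y = y * x) →
      A = ⊥) : Monoid.exponent (T : Subgroup G) ∣ 2 ^ k := by
  have h1 := hSC _ (rootInv_stronglyClosed hG T) fun x hx y hy =>
    rootInv_commute hG T (rootInv_le _ _ hy) (rootInv_sq hG T hy) hx
  refine Monoid.exponent_dvd_of_forall_pow_eq_one fun x => ?_
  apply Subtype.ext
  change (x : G) ^ (2 ^ k) = 1
  obtain ⟨m, hm⟩ := T.isPGroup' x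
  have hm' : (x : G) ^ (2 ^ m) = 1 := congrArg Subtype.val hm
  by_contra hne
  have hex : ∃ j, (x : G) ^ (2 ^ (k + j)) = 1 := ⟨m, by rw [add_comm, pow_add, pow_mul, hm', one_pow]⟩
  classical
  let j := Nat.find hex
  have hj : (x : G) ^ (2 ^ (k + j)) = 1 := Nat.find_spec hex
  have hj0 : j ≠ 0 := by
    intro h0
    rw [h0, add_zero] at hj
    exact hne hj
  obtain ⟨i, hi⟩ := Nat.exists_eq_succ_of_ne_zero hj0
  have hi1 : (x : G) ^ (2 ^ (k + i)) ≠ 1 := Nat.find_min hex (show i < Nat.find hex by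
    change i < j
    omega)
  apply hi1
  have h2 : (x : G) ^ (2 ^ (k + i)) ∈ rootInv (T : Subgroup G) k := by
    refine subset_closure ⟨pow_mem x.2 _, ?_, (x : G) ^ (2 ^ i), ?_⟩
    · rw [← pow_mul, ← pow_succ]
      rw [hi] at hj
      exact hj
    · rw [← pow_mul, ← pow_add, add_comm i k]
  rw [h1, mem_bot] at h2
  exact h2

end

end E1adH4
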