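import Mathlib
import Pool.Agent.Lib.MP_1ad17e_al_h4.InvTwo
import Pool.Agent.Lib.MP_1ad17e_al_h4.Lam

/-!
MP_1ad17e_al: involutions which are `2 ^ k`-th powers, `k = max n (n - 1 + log2 (n - 1))`.
-/

set_option autoImplicit false

namespace E1adH4

open Subgroup
open scoped commutatorElement

section numeric

private theorem pow_ge' (m : ℕ) (hm : 2 ≤ m) : 3 * m + 2 ≤ 2 ^ (m + 1) := by
  induction m, hm using Nat.le_induction with
  | base => norm_num
  | succ m hm ih =>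
    rw [pow_succ]
    omega

/-- The numerical condition. -/
theorem dd_large' {n m k : ℕ} (hm : m + 3 ≤ n) (hkn : n ≤ k)
    (hk : n - 1 + Nat.log 2 (n - 1) ≤ k) : n ≤ dd m (k - m - 1) := by
  set L := Nat.log 2 (n - 1) with hL
  have hL1 : n - 1 < 2 ^ (L + 1) := Nat.lt_pow_succ_log_self (by norm_num) _
  have hL0 : 1 ≤ L := by
    by_contra h0
    have h1 : L = 0 := by omega
    rw [h1] at hL1
    norm_num at hL1
    omega
  rcases Nat.lt_or_ge (m + 1) (k - m - 1) with h | h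
  · obtain ⟨t, ht⟩ := Nat.exists_eq_add_of_lt h
    have e : k - m - 1 = m + 1 + (t + 1) := by omega
    rw [e]
    refine le_trans ?_ (dd_ge m (t + 1))
    rcases Nat.lt_or_ge m 2 with hm2 | hm2
    · rcases Nat.lt_or_ge m 1 with hm1 | hm1
      · have hm0 : m = 0 := by omega
        subst hm0
        simp only [pow_zero, mul_one, zero_add, pow_one]
        omega
      · have hm0 : m = 1 := by omega
        subst hm0
        norm_num
        omega
    · have h1 := pow_ge' m hm2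
      have h2 : 4 ≤ 2 ^ m := by
        calc 4 = 2 ^ 2 := by norm_num
          _ ≤ 2 ^ m := Nat.pow_le_pow_right (by norm_num) hm2
      have h3 : (t + 1) * 4 ≤ (t + 1) * 2 ^ m := Nat.mul_le_mul_left _ h2
      omega
  · rw [dd_eq m _ h]
    have h1 : 2 ^ (L + 1) ≤ 2 ^ (k - m - 1) := Nat.pow_le_pow_right (by norm_num) (by omega)
    omega

end numeric

section main

variable {G : Type*} [Group G] [Finite G]

/-- the class of the 2-subgroups -/
theorem pg_lcs {n : ℕ} (T : Sylow 2 G) (hT : Group.nilpotencyClass (T : Subgroup G) ≤ n)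
    {P : Subgroup G} (hP : IsPGroup 2 P) : (⊤ : Subgroup P).lowerCentralSeries n = ⊥ := by
  have hTn : Group.IsNilpotent (T : Subgroup G) := T.isPGroup'.isNilpotent
  have h1 : (T : Subgroup G).lowerCentralSeries n = ⊥ :=
    lowerCentralSeries_eq_bot_of_nilpotencyClass_le hT
  obtain ⟨S, hS⟩ := hP.exists_le_sylow
  obtain ⟨g, hg⟩ := MulAction.exists_smul_eq G S T
  have h2 : P.map (MulAut.conj g).toMonoidHom ≤ (T : Subgroup G) := by
    rintro _ ⟨z, hz, rfl⟩
    rw [← hg]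
    exact ⟨z, hS hz, rfl⟩
  have h3 : (P.lowerCentralSeries n).map (MulAut.conj g).toMonoidHom = ⊥ := by
    rw [map_lowerCentralSeries, eq_bot_iff, ← h1]
    exact Subgroup.lowerCentralSeries_mono n h2
  have h4 : P.lowerCentralSeries n = ⊥ := by
    rw [map_eq_bot_iff_of_injective] at h3
    · exact h3
    · exact (MulAut.conj g).injective
  rw [← map_subtype_inj, Subgroup.map_bot, top_subtype_lowerCentralSeries, h4]

/-- the commutator with an involution in a 2-subgroup -/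
theorem central_of_class {n m : ℕ} (hmn : n ≤ m + 2) (T : Sylow 2 G)
    (hT : Group.nilpotencyClass (T : Subgroup G) ≤ n) {E : Subgroup G} (hE : IsPGroup 2 E)
    {p v y t : G} (hp : p ∈ E) (hv : v ∈ E) (hv2 : v * v = 1) (hpy : p ^ (2 ^ m) = y) (ht : t ∈ E) :
    ⁅y, v⁆ * t = t * ⁅y, v⁆ := by
  have h0 := pg_lcs T hT hE
  have h1 := comm_mem (x := (⟨p, hp⟩ : E)) (q := ⟨v, hv⟩) (Subtype.ext hv2) m
  have h2 : ⁅⁅(⟨p, hp⟩ : E) ^ (2 ^ m), (⟨v, hv⟩ : E)⁆, (⟨t, ht⟩ : E)⁆ ∈
      (⊤ : Subgroup E).lowerCentralSeries (m + 1 + 1) :=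
    commutator_mem_commutator h1 (mem_top _)
  have h3 := Subgroup.lowerCentralSeries_antitone (⊤ : Subgroup E) (show n ≤ m + 1 + 1 by omega) h2
  rw [h0, Subgroup.mem_bot, commutatorElement_eq_one_iff_mul_comm] at h3
  have h4 := congrArg Subtype.val h3
  have e : ((⁅(⟨p, hp⟩ : E) ^ (2 ^ m), (⟨v, hv⟩ : E)⁆ : E) : G) = ⁅y, v⁆ := by
    rw [← hpy]
    rfl
  calc ⁅y, v⁆ * t = ((⁅(⟨p, hp⟩ : E) ^ (2 ^ m), (⟨v, hv⟩ : E)⁆ : E) : G) * t := by rw [e]
    _ = t * ((⁅(⟨p, hp⟩ : E) ^ (2 ^ m), (⟨v, hv⟩ : E)⁆ : E) : G) := h4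
    _ = t * ⁅y, v⁆ := by rw [e]

/-- a larger 2-subgroup -/
theorem pgroup_sup {P E : Subgroup G} (hE : IsPGroup 2 E) (hPE : P ≤ E) {t : G} (ht : t ∈ E)
    (htP : t ∉ P) : IsPGroup 2 (P ⊔ zpowers t : Subgroup G) ∧
      Nat.card P + 1 ≤ Nat.card (P ⊔ zpowers t : Subgroup G) := by
  have h1 : P ⊔ zpowers t ≤ E := sup_le hPE (by rw [zpowers_le]; exact ht)
  refine ⟨hE.to_le h1, ?_⟩
  have h2 : P < P ⊔ zpowers t := by
    refine lt_of_le_of_ne le_sup_left ?_
    intro h
    apply htP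
    rw [h]
    exact mem_sup_right (mem_zpowers t)
  exact Set.ncard_lt_ncard (s := (P : Set G)) (t := ((P ⊔ zpowers t : Subgroup G) : Set G)) h2
    (Set.toFinite _)

/-- There is no involution `b` which exchanges `y` and `y z`; induction on the order of a Sylow
2-subgroup of the centraliser of `y` and `z`. -/
theorem key_three {n k : ℕ} (hn : 2 ≤ n) (hkn : n ≤ k) (hk : n - 1 + Nat.log 2 (n - 1) ≤ k)
    (T : Sylow 2 G) (hT : Group.nilpotencyClass (T : Subgroup G) ≤ n) {y r : G}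
    (hr : r ^ (2 ^ k) = y) (hy : y * y = 1) :
    ∀ (N : ℕ) (z b : G) (X : Subgroup G), z * z = 1 → b * b = 1 → y * z = z * y →
      b * z * b⁻¹ = z → b * y * b⁻¹ = y * z → z ≠ 1 → IsPGroup 2 X → (∀ x ∈ X, x * y = y * x) →
      (∀ x ∈ X, x * z = z * x) → Nat.card G ≤ Nat.card X + N → False := by
  intro N
  induction N using Nat.strong_induction_on with
  | _ N IH =>
  intro z b X hz hb hyz hbz hby hne hX2 hXy hXz hN
  have hyi : y⁻¹ = y := inv_eq_of_mul_eq_one_left hy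
  have hbi : b⁻¹ = b := inv_eq_of_mul_eq_one_left hb
  -- the Sylow subgroup of the stabiliser
  obtain ⟨P, hP, hbP, hPs, hPc⟩ := exists_syl (stab y z hz) (zpowers b)
    (pgrp_of_pow (m := 1) (by rw [pow_one, pow_two, hb]))
    (by
      rw [zpowers_le]
      exact ⟨hbz, Or.inr hby⟩)
  have hbP : b ∈ P := hbP (mem_zpowers b)
  set P0 := P ⊓ centralizer {y} with hP0
  have hP0p : IsPGroup 2 P0 := hP.to_le inf_le_left
  have hP0y : ∀ x ∈ P0, x * y = y * x := fun x hx => mem_centralizer_singleton_iff.1 hx.2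
  have hP0z : ∀ x ∈ P0, x * z = z * x := by
    intro x hx
    have h1 := (hPs hx.1).1
    calc x * z = (x * z * x⁻¹) * x := by group
      _ = z * x := by rw [h1]
  -- the 2-subgroups of the centraliser of `y` and `z`
  have hXP : ∀ X : Subgroup G, IsPGroup 2 X → (∀ x ∈ X, x * y = y * x) → (∀ x ∈ X, x * z = z * x) →
      Nat.card X ≤ Nat.card P0 := by
    intro X hX2 hXy hXz
    obtain ⟨d, hd, h⟩ := hPc X hX2 (by
      intro x hx
      exact ⟨by rw [hXz x hx]; group, Or.inl (by rw [hXy x hx]; group)⟩)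
    have h1 : ∀ x ∈ X, d * x * d⁻¹ ∈ P0 := by
      intro x hx
      refine mem_inf.2 ⟨h x hx, mem_centralizer_singleton_iff.2 ?_⟩
      have h1 : x * y = y * x := hXy x hx
      have h2 : x * z = z * x := hXz x hx
      have h3 : (d * x * d⁻¹) * z = z * (d * x * d⁻¹) := by
        calc (d * x * d⁻¹) * z = (d * x * d⁻¹) * (d * z * d⁻¹) := by rw [hd.1]
          _ = d * (x * z) * d⁻¹ := by group
          _ = d * (z * x) * d⁻¹ := by rw [h2]
          _ = (d * z * d⁻¹) * (d * x * d⁻¹) := by group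
          _ = z * (d * x * d⁻¹) := by rw [hd.1]
      have h4 : (d * x * d⁻¹) * (d * y * d⁻¹) = (d * y * d⁻¹) * (d * x * d⁻¹) := by
        calc (d * x * d⁻¹) * (d * y * d⁻¹) = d * (x * y) * d⁻¹ := by group
          _ = d * (y * x) * d⁻¹ := by rw [h1]
          _ = (d * y * d⁻¹) * (d * x * d⁻¹) := by group
      rcases hd.2 with h5 | h5
      · rwa [h5] at h4
      · rw [h5] at h4
        have h6 : y = (y * z) * z := by rw [mul_assoc, hz, mul_one]
        calc (d * x * d⁻¹) * y = ((d * x * d⁻¹) * (y * z)) * z := by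
              conv_lhs => rw [h6]
              group
          _ = ((y * z) * (d * x * d⁻¹)) * z := by rw [h4]
          _ = (y * z) * ((d * x * d⁻¹) * z) := by group
          _ = (y * z) * (z * (d * x * d⁻¹)) := by rw [h3]
          _ = ((y * z) * z) * (d * x * d⁻¹) := by group
          _ = y * (d * x * d⁻¹) := by rw [← h6]
    refine Nat.card_le_card_of_injective (fun x : X => (⟨d * x * d⁻¹, h1 x x.2⟩ : P0)) ?_
    intro u v huv
    have h := congrArg Subtype.val huv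
    exact Subtype.ext (mul_left_cancel (mul_right_cancel h))
  have hmax : ∀ (E : Subgroup G) (w : G), IsPGroup 2 E → P0 ≤ E → w ∈ E → w * y = y * w →
      w * z = z * w → w ∈ P0 := by
    intro E w hE hPE hwE hwy hwz
    by_contra hw
    obtain ⟨h1, h2⟩ := pgroup_sup hE hPE hwE hw
    have h3 : ∀ a : G, (∀ x ∈ P0, x * a = a * x) → w * a = a * w →
        ∀ x ∈ P0 ⊔ zpowers w, x * a = a * x := by
      intro a ha hwa x hx
      have h4 : P0 ⊔ zpowers w ≤ centralizer {a} := by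
        refine sup_le ?_ ?_
        · intro x hx
          exact mem_centralizer_singleton_iff.2 (ha x hx)
        · rw [zpowers_le]
          exact mem_centralizer_singleton_iff.2 hwa
      exact mem_centralizer_singleton_iff.1 (h4 hx)
    have h4 := hXP _ h1 (h3 y hP0y hwy) (h3 z hP0z hwz)
    omega
  have hzP0 : z ∈ P0 := by
    have hzs : z ∈ stab y z hz := ⟨by group, Or.inl (by rw [← hyz]; group)⟩
    obtain ⟨c, hc, h⟩ := hPc (zpowers z) (pgrp_of_pow (m := 1) (by rw [pow_one, pow_two, hz]))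
      (by
        rw [zpowers_le]
        exact hzs)
    have := h z (mem_zpowers z)
    rw [hc.1] at this
    exact mem_inf.2 ⟨this, mem_centralizer_singleton_iff.2 hyz.symm⟩
  obtain ⟨S, hS, hP0S, hSc, hSsyl⟩ := exists_syl (centralizer {y}) P0 hP0p inf_le_right
  have hSy : ∀ x ∈ S, x * y = y * x := fun x hx => mem_centralizer_singleton_iff.1 (hSc hx)
  -- the conjugate of `r` in `S`
  have hr2 : r ^ (2 ^ (k + 1)) = 1 := by rw [pow_succ, pow_mul, hr, pow_two, hy]
  obtain ⟨c, hc, hcr⟩ := hSsyl (zpowers r) (pgrp_of_pow hr2) (by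
    rw [zpowers_le, mem_centralizer_singleton_iff, ← hr]
    exact (Commute.self_pow r _).eq)
  have hcy : c * y * c⁻¹ = y := by
    rw [mem_centralizer_singleton_iff.1 hc]
    group
  set r1 := c * r * c⁻¹ with hr1
  have hr1S : r1 ∈ S := hcr r (mem_zpowers r)
  have hr1y : r1 ^ (2 ^ k) = y := by rw [hr1, conj_pow, hr, hcy]
  -- the least power
  have hzS : z ∈ S := hP0S hzP0
  have hex : ∃ i, r1 ^ (2 ^ i) * z = z * r1 ^ (2 ^ i) :=
    ⟨n - 1, commute_of_sylow (by omega) T hT hS hr1S hzS hz⟩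
  classical
  let i := Nat.find hex
  have hi : r1 ^ (2 ^ i) * z = z * r1 ^ (2 ^ i) := Nat.find_spec hex
  have hin : i ≤ n - 1 :=
    Nat.find_min' hex (commute_of_sylow (by omega) T hT hS hr1S hzS hz)
  set p := r1 ^ (2 ^ i) with hp
  have hpy' : p * y = y * p := hSy _ (pow_mem hr1S _)
  have hpP0 : p ∈ P0 := hmax S p hS hP0S (pow_mem hr1S _) hpy' hi
  obtain ⟨m, hm⟩ := Nat.exists_eq_add_of_le (show i ≤ k by omega)
  have hpy : p ^ (2 ^ m) = y := by
    rw [hp, ← pow_mul, ← pow_add, ← hm, hr1y]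
  have hyb : y * b ≠ b * y := by
    intro h
    apply hne
    have h1 : b * y * b⁻¹ = y := by
      rw [← h]
      group
    rw [hby] at h1
    exact mul_eq_left.1 h1
  have hmn : m + 2 ≤ n := by
    by_contra hlt
    apply hyb
    have h1 := commute_of_sylow (by omega) T hT hP hpP0.1 hbP hb
    have h2 : y = (p ^ (2 ^ (n - 1))) ^ (2 ^ (m - (n - 1))) := by
      rw [← pow_mul, ← pow_add, ← hpy]
      congr 2
      omega
    rw [h2]
    exact ((show Commute (p ^ (2 ^ (n - 1))) b from h1).pow_left _).eq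
  have hi1 : 1 ≤ i := by omega
  have hbP0 : ∀ x ∈ P0, b * x * b⁻¹ ∈ P0 := by
    intro x hx
    refine mem_inf.2 ⟨mul_mem (mul_mem hbP hx.1) (inv_mem hbP),
      mem_centralizer_singleton_iff.2 ?_⟩
    have h1 : b * (y * z) * b⁻¹ = y := by
      calc b * (y * z) * b⁻¹ = (b * y * b⁻¹) * (b * z * b⁻¹) := by group
        _ = y := by rw [hby, hbz, mul_assoc, hz, mul_one]
    have h2 : x * (y * z) = (y * z) * x := by
      calc x * (y * z) = (x * y) * z := by group
        _ = y * (x * z) := by rw [hP0y x hx]; group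
        _ = (y * z) * x := by rw [hP0z x hx]; group
    calc b * x * b⁻¹ * y = (b * x * b⁻¹) * (b * (y * z) * b⁻¹) := by rw [h1]
      _ = b * (x * (y * z)) * b⁻¹ := by group
      _ = b * ((y * z) * x) * b⁻¹ := by rw [h2]
      _ = (b * (y * z) * b⁻¹) * (b * x * b⁻¹) := by group
      _ = y * (b * x * b⁻¹) := by rw [h1]
  -- `r1 ^ (2 ^ (i - 1))` does not commute with `z`
  have hfin : r1 ^ (2 ^ (i - 1)) * z ≠ z * r1 ^ (2 ^ (i - 1)) :=
    Nat.find_min hex (show i - 1 < Nat.find hex by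
      change i - 1 < i
      omega)
  apply hfin
  rcases Nat.lt_or_ge n (m + 3) with hm3 | hm3
  swap
  · -- the case `m + 3 ≤ n`
    set q := b * p * b⁻¹ with hq
    have hqy : q ^ (2 ^ m) = y * z := by rw [hq, conj_pow, hpy, hby]
    have hyz2 : (y * z) * (y * z) = 1 := by
      calc (y * z) * (y * z) = y * (z * y) * z := by group
        _ = (y * y) * (z * z) := by rw [← hyz]; group
        _ = 1 := by rw [hy, hz, one_mul]
    have h1 := depth_of_sylow T hT hS (l := i - 1) hr1S (hP0S (hbP0 p hpP0)) hyz2 hqy (by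
      have := dd_large' hm3 hkn hk
      have e : k - m - 1 = i - 1 := by omega
      rwa [e] at this)
    have h2 : y * r1 ^ (2 ^ (i - 1)) = r1 ^ (2 ^ (i - 1)) * y := by
      rw [← hr1y]
      exact ((Commute.refl r1).pow_pow _ _).eq
    have h4 : z = y * (y * z) := by rw [← mul_assoc, hy, one_mul]
    calc r1 ^ (2 ^ (i - 1)) * z = (r1 ^ (2 ^ (i - 1)) * y) * (y * z) := by
          conv_lhs => rw [h4]
          group
      _ = y * (r1 ^ (2 ^ (i - 1)) * (y * z)) := by rw [← h2]; group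
      _ = y * ((y * z) * r1 ^ (2 ^ (i - 1))) := by rw [h1]
      _ = (y * (y * z)) * r1 ^ (2 ^ (i - 1)) := by group
      _ = z * r1 ^ (2 ^ (i - 1)) := by rw [← h4]
  -- the case `n = m + 2`
  have hnm : n = m + 2 := by omega
  by_contra hfin'
  clear hfin
  -- the element `t`
  obtain ⟨t, htS, htP0, ht2, htn, htL⟩ : ∃ t ∈ S, t ∉ P0 ∧ t * t ∈ P0 ∧
      (∀ x ∈ P0, t * x * t⁻¹ ∈ P0) ∧
      ∀ h : t ∈ S, (⟨t, h⟩ : S) ∈ P0.subgroupOf S ⊔ Lam S i := by
    have hlt : P0.subgroupOf S < P0.subgroupOf S ⊔ Lam S i := by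
      refine lt_of_le_of_ne le_sup_left ?_
      intro h
      have h1 : (⟨r1, hr1S⟩ : S) ^ (2 ^ (i - 1)) ∈ Lam S i := by
        have := pow_mem_Lam (⟨r1, hr1S⟩ : S) (i - 1)
        rwa [show i - 1 + 1 = i by omega] at this
      have h2 : (⟨r1, hr1S⟩ : S) ^ (2 ^ (i - 1)) ∈ P0.subgroupOf S := by
        rw [h]
        exact mem_sup_right h1
      exact hfin' (hP0z _ (mem_subgroupOf.1 h2))
    obtain ⟨t, ht1, ht2, ht3, ht4⟩ := exists_t hS hlt
    refine ⟨t, t.2, fun h => ht2 (mem_subgroupOf.2 h), mem_subgroupOf.1 ht3, ?_, fun _ => ht1⟩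
    intro x hx
    exact mem_subgroupOf.1 (ht4 ⟨x, hP0S hx⟩ (mem_subgroupOf.2 hx))
  have hyP0 : y ∈ P0 := by
    rw [← hpy]
    exact pow_mem hpP0 _
  -- the normaliser of `P0`
  set Nm := normalizer (P0 : Set G) with hNm
  have hbN : b ∈ Nm := by
    rw [hNm, mem_normalizer_iff]
    intro x
    refine ⟨fun hx => hbP0 x hx, fun hx => ?_⟩
    have h1 := hbP0 _ hx
    have e : b * (b * x * b⁻¹) * b⁻¹ = x := by
      rw [hbi]
      calc b * (b * x * b) * b = (b * b) * x * (b * b) := by group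
        _ = x := by rw [hb]; group
    rwa [e] at h1
  have htN : t ∈ Nm := by
    rw [hNm, mem_normalizer_iff]
    intro x
    refine ⟨fun hx => htn x hx, fun hx => ?_⟩
    have h1 := htn _ hx
    have h2 := mul_mem (mul_mem (inv_mem ht2) h1) ht2
    have e : (t * t)⁻¹ * (t * (t * x * t⁻¹) * t⁻¹) * (t * t) = x := by group
    rwa [e] at h2
  have hP0N : P0 ≤ Nm := le_normalizer
  set π : Nm →* Nm ⧸ P0.subgroupOf Nm := QuotientGroup.mk' (P0.subgroupOf Nm) with hπ
  have hπ1 : ∀ x : Nm, π x = 1 ↔ (x : G) ∈ P0 := by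
    intro x
    rw [hπ, QuotientGroup.mk'_apply, QuotientGroup.eq_one_iff]
    exact mem_subgroupOf
  set B := π ⟨b, hbN⟩ with hB
  set t' := π ⟨t, htN⟩ with ht'
  have hBB : B * B = 1 := by
    rw [hB, ← map_mul, hπ1]
    change b * b ∈ P0
    rw [hb]
    exact one_mem _
  have htt : t' * t' = 1 := by
    rw [ht', ← map_mul, hπ1]
    exact ht2
  set D : Subgroup G := ((closure {B, t'}).comap π).map Nm.subtype with hD
  have hP0D : P0 ≤ D := by
    intro x hx
    refine ⟨⟨x, hP0N hx⟩, ?_, rfl⟩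
    change π ⟨x, hP0N hx⟩ ∈ closure {B, t'}
    rw [(hπ1 _).2 hx]
    exact one_mem _
  have htD : t ∈ D := ⟨⟨t, htN⟩, subset_closure (Or.inr rfl), rfl⟩
  have hbD : b ∈ D := ⟨⟨b, hbN⟩, subset_closure (Or.inl rfl), rfl⟩
  obtain ⟨hQt, hQc⟩ := pgroup_sup hS hP0S htS htP0
  obtain ⟨PD, hPD, hQPD, hPDD, hPDc⟩ := exists_syl D (P0 ⊔ zpowers t) hQt
    (sup_le hP0D (by rw [zpowers_le]; exact htD))
  obtain ⟨g, hg, hgv⟩ := hPDc (zpowers b) (pgrp_of_pow (m := 1) (by rw [pow_one, pow_two, hb]))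
    (by rw [zpowers_le]; exact hbD)
  obtain ⟨g', hg'1, hg'2⟩ := hg
  have hg'c : π g' ∈ closure {B, t'} := hg'1
  have hg'v : (g' : G) = g := hg'2
  have hgN : g ∈ Nm := by rw [← hg'v]; exact g'.2
  have hgP0 : ∀ x ∈ P0, g * x * g⁻¹ ∈ P0 := fun x hx => (mem_normalizer_iff.1 hgN x).1 hx
  set v := g * b * g⁻¹ with hv
  have hvPD : v ∈ PD := hgv b (mem_zpowers b)
  have hv2 : v * v = 1 := by
    rw [hv]
    calc g * b * g⁻¹ * (g * b * g⁻¹) = g * (b * b) * g⁻¹ := by group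
      _ = 1 := by rw [hb]; group
  have hvi : v⁻¹ = v := inv_eq_of_mul_eq_one_left hv2
  have hvN : v ∈ Nm := mul_mem (mul_mem hgN hbN) (inv_mem hgN)
  have hP0PD : P0 ≤ PD := le_sup_left.trans hQPD
  have htPD : t ∈ PD := hQPD (mem_sup_right (mem_zpowers t))
  -- `v` fixes `y`
  have hvy : v * y * v⁻¹ = y := by
    by_contra hvy
    set y1 := v * y * v⁻¹ with hy1
    have hy1P : y1 ∈ P0 := (mem_normalizer_iff.1 hvN y).1 hyP0
    have hyy1 : y1 * y = y * y1 := hP0y _ hy1P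
    have hy11 : y1 * y1 = 1 := by
      rw [hy1]
      calc v * y * v⁻¹ * (v * y * v⁻¹) = v * (y * y) * v⁻¹ := by group
        _ = 1 := by rw [hy]; group
    have hz' : ⁅y, v⁆ = y * y1 := by
      rw [commutatorElement_def, hyi, hy1]
      group
    have hvz : v * y1 * v⁻¹ = y := by
      rw [hy1, hvi]
      calc v * (v * y * v) * v = (v * v) * y * (v * v) := by group
        _ = y := by rw [hv2]; group
    have hXc : ∀ x ∈ P0 ⊔ zpowers t, x * y = y * x := by
      intro x hx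
      exact hSy x ((sup_le hP0S (by rw [zpowers_le]; exact htS) : P0 ⊔ zpowers t ≤ S) hx)
    have hXz' : ∀ x ∈ P0 ⊔ zpowers t, x * (y * y1) = (y * y1) * x := by
      intro x hx
      have := central_of_class (show n ≤ m + 2 by omega) T hT hPD (hP0PD hpP0) hvPD hv2 hpy
        (hQPD hx)
      rw [hz'] at this
      exact this.symm
    have h1 : Nat.card X ≤ Nat.card P0 := hXP X hX2 hXy hXz
    have h2 : Nat.card (P0 ⊔ zpowers t : Subgroup G) ≤ Nat.card G := Subgroup.card_le_card_group _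
    refine IH (N - 1) (by omega) (y * y1) v (P0 ⊔ zpowers t) ?_ hv2 ?_ ?_ ?_ ?_ hQt hXc hXz'
      (by omega)
    · calc y * y1 * (y * y1) = y * (y1 * y) * y1 := by group
        _ = (y * y) * (y1 * y1) := by rw [hyy1]; group
        _ = 1 := by rw [hy, hy11, one_mul]
    · rw [mul_assoc, hyy1]
    · calc v * (y * y1) * v⁻¹ = (v * y * v⁻¹) * (v * y1 * v⁻¹) := by group
        _ = y1 * y := by rw [hvz]
        _ = y * y1 := hyy1
    · rw [← hy1, ← mul_assoc, hy, one_mul]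
    · intro h
      apply hvy
      have h3 : y1 = y⁻¹ := eq_inv_of_mul_eq_one_right h
      rw [h3, hyi]
  have hvy' : v * y = y * v := by
    calc v * y = (v * y * v⁻¹) * v := by group
      _ = y * v := by rw [hvy]
  have hty : t * y = y * t := hSy t htS
  -- `w = v * t`
  have hwy : v * t * y = y * (v * t) := by
    calc v * t * y = v * (t * y) := by group
      _ = (v * y) * t := by rw [hty]; group
      _ = y * (v * t) := by rw [hvy']; group
  have hbw : b * (v * t) * b⁻¹ * (v * t) ∈ P0 := by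
    obtain ⟨j, hj⟩ := dihedral hBB htt hg'c
    have hBi : B⁻¹ = B := inv_eq_of_mul_eq_one_left hBB
    have hti : t'⁻¹ = t' := inv_eq_of_mul_eq_one_left htt
    have h1 : π ⟨v, hvN⟩ = (B * t') ^ j * B := by
      rw [← hj]
      have e : (⟨v, hvN⟩ : Nm) = g' * ⟨b, hbN⟩ * g'⁻¹ := by
        apply Subtype.ext
        change v = (g' : G) * b * (g' : G)⁻¹
        rw [hg'v]
      rw [e, map_mul, map_mul, map_inv]
    have h2 : B * (B * t') * B⁻¹ = (B * t')⁻¹ := by
      rw [mul_inv_rev, hBi, hti]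
      calc B * (B * t') * B = (B * B) * t' * B := by group
        _ = t' * B := by rw [hBB, one_mul]
    have h3 : π (⟨v, hvN⟩ * ⟨t, htN⟩) = (B * t') ^ (j + 1) := by
      rw [map_mul, h1, zpow_add_one, ← ht', mul_assoc]
    have h4 : π (⟨b, hbN⟩ * (⟨v, hvN⟩ * ⟨t, htN⟩) * ⟨b, hbN⟩⁻¹ * (⟨v, hvN⟩ * ⟨t, htN⟩)) = 1 := by
      rw [map_mul, map_mul, map_mul π ⟨b, hbN⟩, map_inv, h3, ← hB, ← conj_zpow, h2, inv_zpow,
        inv_mul_cancel]
    exact (hπ1 _).1 h4
  have hwz : v * t * z = z * (v * t) := by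
    set w := v * t with hw
    have h1 : (b * w * b⁻¹) * y = y * (b * w * b⁻¹) := by
      have e : b * w * b⁻¹ = (b * w * b⁻¹ * w) * w⁻¹ := by group
      have h2 : w⁻¹ * y = y * w⁻¹ := by
        calc w⁻¹ * y = w⁻¹ * (y * w) * w⁻¹ := by group
          _ = w⁻¹ * (w * y) * w⁻¹ := by rw [hwy]
          _ = y * w⁻¹ := by group
      rw [e]
      calc (b * w * b⁻¹ * w) * w⁻¹ * y = (b * w * b⁻¹ * w) * (w⁻¹ * y) := by group
        _ = ((b * w * b⁻¹ * w) * y) * w⁻¹ := by rw [h2]; group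
        _ = y * ((b * w * b⁻¹ * w) * w⁻¹) := by rw [hP0y _ hbw]; group
    have h2 : b⁻¹ * y * b = y * z := by
      rw [← hby, hbi]
    have h3 : w * (y * z) = (y * z) * w := by
      rw [← h2]
      calc w * (b⁻¹ * y * b) = b⁻¹ * ((b * w * b⁻¹) * y) * b := by group
        _ = b⁻¹ * (y * (b * w * b⁻¹)) * b := by rw [h1]
        _ = b⁻¹ * y * b * w := by group
    calc w * z = w * ((y * y) * z) := by rw [hy, one_mul]
      _ = (w * y) * (y * z) := by group
      _ = y * (w * (y * z)) := by rw [hwy]; group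
      _ = (y * y) * z * w := by rw [h3]; group
      _ = z * w := by rw [hy, one_mul]
  have hwP0 : v * t ∈ P0 := hmax PD (v * t) hPD hP0PD (mul_mem hvPD htPD) hwy hwz
  have hvS : v ∈ S := by
    have e : v = (v * t) * t⁻¹ := by group
    rw [e]
    exact mul_mem (hP0S hwP0) (inv_mem htS)
  have hlS : (⊤ : Subgroup S).lowerCentralSeries n = ⊥ := pg_lcs T hT hS
  -- `v` in `S`
  have hvL : (⟨v, hvS⟩ : S) ∈ P0.subgroupOf S ⊔ Lam S i := by
    have e : (⟨v, hvS⟩ : S) = ⟨v * t, hP0S hwP0⟩ * ⟨t, htS⟩⁻¹ := by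
      apply Subtype.ext
      change v = v * t * t⁻¹
      group
    rw [e]
    exact mul_mem (mem_sup_left (mem_subgroupOf.2 hwP0)) (inv_mem (htL htS))
  obtain ⟨s, hs, x, hx, hsx⟩ := (mem_sup_of_normal_right).1 hvL
  have hcore := core (P := P0.subgroupOf S) (τ := (⟨v, hvS⟩ : S)) (s := s) (x := x)
    (q := ⟨g * p * g⁻¹, hP0S (hgP0 p hpP0)⟩) hi1 (Subtype.ext hv2) (by
      intro u hu
      exact mem_subgroupOf.2 ((mem_normalizer_iff.1 hvN _).1 (mem_subgroupOf.1 hu))) hs hx hsx.symm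
    (mem_subgroupOf.2 (hgP0 p hpP0)) m
  have hKS : KS (normalClosure {(⟨v, hvS⟩ : S)}) (m + i) = ⊥ := by
    rw [eq_bot_iff, ← hlS]
    exact (KS_le_lcs _ _).trans
      (Subgroup.lowerCentralSeries_antitone (⊤ : Subgroup S) (show n ≤ m + i by omega))
  rw [hKS, sup_bot_eq] at hcore
  have hgz : g * z * g⁻¹ ∈ P0.lowerCentralSeries m := by
    have h1 : (P0.subgroupOf S).map S.subtype = P0 := by
      rw [subgroupOf_map_subtype, inf_eq_left.2 hP0S]
    have h2 := mem_map_of_mem S.subtype hcore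
    rw [map_lowerCentralSeries, h1] at h2
    have e : S.subtype ⁅(⟨g * p * g⁻¹, hP0S (hgP0 p hpP0)⟩ : S) ^ (2 ^ m), ⟨v, hvS⟩⁆ =
        g * z * g⁻¹ := by
      have e1 : S.subtype ⁅(⟨g * p * g⁻¹, hP0S (hgP0 p hpP0)⟩ : S) ^ (2 ^ m), ⟨v, hvS⟩⁆ =
        ⁅(g * p * g⁻¹) ^ (2 ^ m), v⁆ := rfl
      have e2 : b * y⁻¹ * b⁻¹ = y * z := by rw [hyi, hby]
      rw [e1, conj_pow, hpy, commutatorElement_def, hv]
      calc g * y * g⁻¹ * (g * b * g⁻¹) * (g * y * g⁻¹)⁻¹ * (g * b * g⁻¹)⁻¹ =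
          g * (y * (b * y⁻¹ * b⁻¹)) * g⁻¹ := by group
        _ = g * ((y * y) * z) * g⁻¹ := by rw [e2]; group
        _ = g * z * g⁻¹ := by rw [hy, one_mul]
    rwa [e] at h2
  have hzm : z ∈ P0.lowerCentralSeries m := by
    have h1 : P0.map (MulAut.conj g⁻¹).toMonoidHom ≤ P0 := by
      rintro _ ⟨u, hu, rfl⟩
      have := (mem_normalizer_iff.1 (inv_mem hgN) u).1 hu
      exact this
    have h2 := mem_map_of_mem (MulAut.conj g⁻¹).toMonoidHom hgz
    rw [map_lowerCentralSeries] at h2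
    have h3 := Subgroup.lowerCentralSeries_mono m h1 h2
    have e : (MulAut.conj g⁻¹).toMonoidHom (g * z * g⁻¹) = z := by
      change g⁻¹ * (g * z * g⁻¹) * g⁻¹⁻¹ = z
      group
    rwa [e] at h3
  have hzS' : (⟨z, hzS⟩ : S) ∈ (⊤ : Subgroup S).lowerCentralSeries m := by
    have h1 := Subgroup.lowerCentralSeries_mono m hP0S hzm
    have h2 : z ∈ ((⊤ : Subgroup S).lowerCentralSeries m).map S.subtype := by
      rw [top_subtype_lowerCentralSeries]
      exact h1
    obtain ⟨u, hu, huz⟩ := h2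
    have e : u = ⟨z, hzS⟩ := Subtype.ext huz
    rwa [e] at hu
  have hr1L : (⟨r1, hr1S⟩ : S) ^ (2 ^ (i - 1)) ∈ Lam S i := by
    have := pow_mem_Lam (⟨r1, hr1S⟩ : S) (i - 1)
    rwa [show i - 1 + 1 = i by omega] at this
  have hcomm := comm_Lam hlS (show n ≤ m + i by omega) (z := (⟨z, hzS⟩ : S)) (Subtype.ext hz) hzS'
    hr1L
  have h5 := congrArg Subtype.val hcomm
  exact hfin' h5.symm

end main

theorem good_of_log' {G : Type*} [Group G] [Finite G] {n k : ℕ} (hn : 2 ≤ n) (hkn : n ≤ k)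
    (hk : n - 1 + Nat.log 2 (n - 1) ≤ k) (T : Sylow 2 G)
    (hT : Group.nilpotencyClass (T : Subgroup G) ≤ n) : Good G k := by
  intro y r b hy hr hb P hP hyP hbP
  refine commute_of_key (fun z b hz hb hyz hbz hby => ?_) hy hb hP hyP hbP
  by_contra hne
  exact key_three hn hkn hk T hT hr hy (Nat.card G) z b ⊥ hz hb hyz hbz hby hne
    IsPGroup.of_bot (fun x hx => by rw [mem_bot.1 hx, one_mul, mul_one])
    (fun x hx => by rw [mem_bot.1 hx, one_mul, mul_one]) (Nat.le_add_left _ _)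

end E1adH4
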